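import Pool.Agent.C8.St

/-!
# C8, module A: dual points (helper38)
-/

set_option autoImplicit false

open Submodule

namespace Pool.Agent.C8

section

variable {V : Type} [AddCommGroup V] [Module (ZMod 2) V] [DecidableEq V]

/-- three vectors which span a space of dimension at most three -/
private theorem Dual_three {K : Type} [AddCommGroup K] [Module (ZMod 2) K]
    [FiniteDimensional (ZMod 2) K] (h : Module.finrank (ZMod 2) K ≤ 3) :
    ∃ b : Fin 3 → K, ∀ c : K, ∃ a : Fin 3 → ZMod 2, c = ∑ i, a i • b i := by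
  obtain ⟨n, hn⟩ : ∃ n, n = Module.finrank (ZMod 2) K := ⟨_, rfl⟩
  let B := (Module.finBasisOfFinrankEq (ZMod 2) K hn.symm)
  refine ⟨fun i => if h : (i : ℕ) < n then B ⟨i, h⟩ else 0, fun c => ?_⟩
  refine ⟨fun i => if h : (i : ℕ) < n then B.repr c ⟨i, h⟩ else 0, ?_⟩
  have h1 : ∑ i : Fin n, B.repr c i • B i = c := B.sum_repr c
  have hn3 : n ≤ 3 := by rw [hn]; exact h
  have h2 : ∑ i : Fin n, B.repr c i • B i = ∑ i : Fin 3,
      (if h : (i : ℕ) < n then B.repr c ⟨i, h⟩ else 0) •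
        (if h : (i : ℕ) < n then B ⟨i, h⟩ else 0) := by
    have e : ∀ i : Fin 3, (if h : (i : ℕ) < n then B.repr c ⟨i, h⟩ else 0) •
        (if h : (i : ℕ) < n then B ⟨i, h⟩ else 0) =
        if h : (i : ℕ) < n then B.repr c ⟨i, h⟩ • B ⟨i, h⟩ else 0 := by
      intro i
      split_ifs with h
      · rfl
      · rw [zero_smul]
    rw [Finset.sum_congr rfl fun i _ => e i]
    rw [Fin.sum_univ_eq_sum_range (fun i => if h : i < n then B.repr c ⟨i, h⟩ • B ⟨i, h⟩ else 0) 3]
    have e2 : ∑ i : Fin n, B.repr c i • B i =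
        ∑ i ∈ Finset.range n, if h : i < n then B.repr c ⟨i, h⟩ • B ⟨i, h⟩ else 0 := by
      rw [← Fin.sum_univ_eq_sum_range]
      refine Finset.sum_congr rfl fun i _ => ?_
      rw [dif_pos i.2]
    rw [e2]
    refine Finset.sum_subset (Finset.range_mono hn3) fun i _ hi => ?_
    rw [Finset.mem_range] at hi
    rw [dif_neg hi]
  rw [← h1]
  conv_rhs => rw [h1]
  rw [← h2]

theorem thm_Dual : St_Dual := by
  intro V _ _ _ X hX
  let T : (X → ZMod 2) →ₗ[ZMod 2] V := Fintype.linearCombination (ZMod 2) (fun v : X => (v : V))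
  have hT : ∀ c : X → ZMod 2, T c = ∑ v : X, c v • (v : V) := fun c =>
    Fintype.linearCombination_apply (ZMod 2) _ c
  have hrange : LinearMap.range T = span (ZMod 2) (X : Set V) := by
    have := Fintype.range_linearCombination (ZMod 2) (fun v : X => (v : V))
    rw [this]
    congr 1
    exact Subtype.range_coe
  have hdim := T.finrank_range_add_finrank_ker
  rw [hrange, Module.finrank_fintype_fun_eq_card, Fintype.card_coe] at hdim
  have hker : Module.finrank (ZMod 2) (LinearMap.ker T) ≤ 3 := by omega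
  obtain ⟨b, hb⟩ := Dual_three hker
  refine ⟨fun v i => if h : v ∈ X then (b i : X → ZMod 2) ⟨v, h⟩ else 0, ?_, ?_⟩
  · intro φ
    have hφ : ∀ t : G, φ t = ∑ i, t i * φ (fun j => if i = j then 1 else 0) := by
      intro t
      rw [LinearMap.pi_apply_eq_sum_univ φ t]
      rfl
    have h1 : ∀ i, ∑ v ∈ X, (if h : v ∈ X then (b i : X → ZMod 2) ⟨v, h⟩ else 0) • v = 0 := by
      intro i
      rw [← Finset.sum_coe_sort X]
      have h2 : T (b i : X → ZMod 2) = 0 := (b i).2
      rw [hT] at h2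
      rw [← h2]
      refine Finset.sum_congr rfl fun v _ => ?_
      rw [dif_pos v.2]
    have h3 : ∀ v ∈ X, φ (fun i => if h : v ∈ X then (b i : X → ZMod 2) ⟨v, h⟩ else 0) • v =
        ∑ i, φ (fun j => if i = j then 1 else 0) •
          ((if h : v ∈ X then (b i : X → ZMod 2) ⟨v, h⟩ else 0) • v) := by
      intro v _
      rw [hφ, Finset.sum_smul]
      refine Finset.sum_congr rfl fun i _ => ?_
      rw [mul_comm, mul_smul]
    rw [Finset.sum_congr rfl h3, Finset.sum_comm]
    refine Finset.sum_eq_zero fun i _ => ?_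
    rw [← Finset.smul_sum, h1, smul_zero]
  · intro c hc
    have hcK : (fun v : X => c v) ∈ LinearMap.ker T := by
      rw [LinearMap.mem_ker, hT, Finset.sum_coe_sort X (fun v => c v • v)]
      exact hc
    obtain ⟨a, ha⟩ := hb ⟨_, hcK⟩
    refine ⟨∑ i, a i • LinearMap.proj i, fun v hv => ?_⟩
    have h1 : (fun v : X => c v) = ∑ i, a i • (b i : X → ZMod 2) := by
      have := congrArg Subtype.val ha
      simpa using this
    have h2 := congrFun h1 ⟨v, hv⟩
    rw [Finset.sum_apply] at h2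
    show c v = _
    rw [h2, LinearMap.sum_apply]
    refine Finset.sum_congr rfl fun i _ => ?_
    show a i * _ = a i * _
    congr 1
    show _ = if h : v ∈ X then (b i : X → ZMod 2) ⟨v, h⟩ else 0
    rw [dif_pos hv]

theorem thm_Cos : St_Cos := by
  intro V _ _ _ X D h0 hD
  refine ⟨fun φ hφ => ?_, fun g => ⟨fun φ => ?_, fun c hc => ?_⟩⟩
  · have h1 := hD.1 φ
    have hz : ∀ z : ZMod 2, z ≠ 0 → z = 1 := by decide
    have h2 : ∑ v ∈ X.filter (fun v => φ (D v) ≠ 0), v = 0 := by
      rw [← h1, Finset.sum_filter]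
      refine Finset.sum_congr rfl fun v _ => ?_
      split_ifs with h
      · rw [hz _ h, one_smul]
      · rw [not_not.1 h, zero_smul]
    obtain ⟨v0, hv0, hne⟩ := hφ
    have hmem : v0 ∈ X.filter (fun v => φ (D v) ≠ 0) := Finset.mem_filter.2 ⟨hv0, hne⟩
    by_contra hlt
    push Not at hlt
    have hpos : 0 < (X.filter (fun v => φ (D v) ≠ 0)).card := Finset.card_pos.2 ⟨v0, hmem⟩
    have hcase : (X.filter (fun v => φ (D v) ≠ 0)).card = 1 ∨
      (X.filter (fun v => φ (D v) ≠ 0)).card = 2 := by omega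
    rcases hcase with hc | hc
    · obtain ⟨v, hv⟩ := Finset.card_eq_one.1 hc
      rw [hv, Finset.sum_singleton] at h2
      have : v ∈ X := (Finset.mem_filter.1 (hv ▸ Finset.mem_singleton_self v :
        v ∈ X.filter (fun v => φ (D v) ≠ 0))).1
      rw [h2] at this
      exact h0 this
    · obtain ⟨v, w, hvw, hv⟩ := Finset.card_eq_two.1 hc
      rw [hv, Finset.sum_pair hvw] at h2
      apply hvw
      have h3 : w + w = 0 := by
        have : (2 : ZMod 2) • w = 0 := by
          rw [show (2 : ZMod 2) = 0 from rfl, zero_smul]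
        rwa [two_smul] at this
      exact add_right_cancel (h2.trans h3.symm)
  · exact hD.1 (φ ∘ₗ (g : G →ₗ[ZMod 2] G))
  · obtain ⟨φ, hφ⟩ := hD.2 c hc
    refine ⟨φ ∘ₗ (g.symm : G →ₗ[ZMod 2] G), fun v hv => ?_⟩
    rw [hφ v hv]
    show _ = φ (g.symm (g (D v)))
    rw [LinearEquiv.symm_apply_apply]

private theorem Dual_dec : ∀ a0 a1 a2 b0 b1 b2 : ZMod 2,
    ¬ (a0 = 0 ∧ a1 = 0 ∧ a2 = 0) → ¬ (b0 = 0 ∧ b1 = 0 ∧ b2 = 0) →
    ¬ (a0 = b0 ∧ a1 = b1 ∧ a2 = b2) → ∃ c0 c1 c2 : ZMod 2, ∀ x0 x1 x2 : ZMod 2,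
      x0 * a0 + x1 * b0 + x2 * c0 = 0 → x0 * a1 + x1 * b1 + x2 * c1 = 0 →
      x0 * a2 + x1 * b2 + x2 * c2 = 0 → x0 = 0 ∧ x1 = 0 ∧ x2 = 0 := by
  decide

theorem thm_Move : St_Move := by
  intro a b ha hb hab
  obtain ⟨c0, c1, c2, hc⟩ := Dual_dec (a 0) (a 1) (a 2) (b 0) (b 1) (b 2)
    (fun h => ha (by
      funext i
      fin_cases i
      · exact h.1
      · exact h.2.1
      · exact h.2.2))
    (fun h => hb (by
      funext i
      fin_cases i
      · exact h.1
      · exact h.2.1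
      · exact h.2.2))
    (fun h => hab (by
      funext i
      fin_cases i
      · exact h.1
      · exact h.2.1
      · exact h.2.2))
  let M : G →ₗ[ZMod 2] G :=
    (LinearMap.proj (R := ZMod 2) (φ := fun _ : Fin 3 => ZMod 2) 0).smulRight a +
    (LinearMap.proj (R := ZMod 2) (φ := fun _ : Fin 3 => ZMod 2) 1).smulRight b +
    (LinearMap.proj (R := ZMod 2) (φ := fun _ : Fin 3 => ZMod 2) 2).smulRight ![c0, c1, c2]
  have hM : ∀ x : G, M x = x 0 • a + x 1 • b + x 2 • ![c0, c1, c2] := fun x => rfl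
  have hinj : Function.Injective M := by
    rw [injective_iff_map_eq_zero]
    intro x hx
    rw [hM] at hx
    have h0 := congrFun hx 0
    have h1 := congrFun hx 1
    have h2 := congrFun hx 2
    obtain ⟨e0, e1, e2⟩ := hc (x 0) (x 1) (x 2) h0 h1 h2
    funext i
    fin_cases i
    · exact e0
    · exact e1
    · exact e2
  let g := (LinearEquiv.ofInjectiveEndo M hinj).symm
  refine ⟨g, ?_, ?_⟩
  · rw [LinearEquiv.symm_apply_eq]
    show a = M ![1, 0, 0]
    rw [hM]
    simp
  · rw [LinearEquiv.symm_apply_eq]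
    show b = M ![0, 1, 0]
    rw [hM]
    simp

end

end Pool.Agent.C8
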