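import Pool.Agent.C8.St

/-!
# C8, Module E: all seven points (helper62)

`F7` has zeros only at some points of the circle, if there are one or two elements at the point `1` and
one at each of the others.  Let `d` be the maximum of the exponents.  Near `exp (2 pi i / d)` the class
sums are `α y * W + β y`, `W = (z ^ d - 1)⁻¹`, `β y` continuous, and `F7` is a polynomial of degree three
in `W`; by enumeration of the `α` one of its coefficients is not `0`, or the two exponents at `1` are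
equal and `F7` is not `0` at `exp (pi i / d)`.
-/

set_option autoImplicit false

open Filter Topology

namespace Pool.Agent.C8

section poly

variable {R : Type} [CommRing R]

/-- the pairs -/
def F7_E2 (a b c d e f g : R) : R :=
  a * (b + c + d + e + f + g) + b * (c + d + e + f + g) + c * (d + e + f + g) +
    d * (e + f + g) + e * (f + g) + f * g

/-- the independent triples -/
def F7_D3 (a b c d e f g : R) : R :=
  a * b * (d + e + f + g) + a * c * (d + e + f + g) + a * d * (f + g) + a * e * (f + g) +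
    b * c * (d + e + f + g) + b * d * (e + g) + b * e * f + b * f * g +
    c * d * (e + f) + c * e * g + c * f * g + d * e * (f + g) + d * f * g + e * f * g

/-- the derivative of the sum of the independent triples at `a, ..` in the direction `a', ..` -/
def F7_M (a b c d e f g a' b' c' d' e' f' g' : R) : R :=
  a' * (b * (d + e + f + g) + c * (d + e + f + g) + d * (f + g) + e * (f + g)) +
    b' * (a * (d + e + f + g) + c * (d + e + f + g) + d * (e + g) + e * f + f * g) +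
    c' * (a * (d + e + f + g) + b * (d + e + f + g) + d * (e + f) + e * g + f * g) +
    d' * (a * (b + c + f + g) + b * (c + e + g) + c * (e + f) + e * (f + g) + f * g) +
    e' * (a * (b + c + f + g) + b * (c + d + f) + c * (d + g) + d * (f + g) + f * g) +
    f' * (a * (b + c + d + e) + b * (c + e + g) + c * (d + g) + d * (e + g) + e * g) +
    g' * (a * (b + c + d + e) + b * (c + d + f) + c * (e + f) + d * (e + f) + e * f)

end poly

theorem F7_expand (a b c d e f g a' b' c' d' e' f' g' W : ℂ) :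
    F7 (a * W + a') (b * W + b') (c * W + c') (d * W + d') (e * W + e') (f * W + f')
      (g * W + g') = F7_D3 a b c d e f g * W ^ 3 +
      (F7_E2 a b c d e f g + F7_M a b c d e f g a' b' c' d' e' f' g') * W ^ 2 +
      ((a + b + c + d + e + f + g) + ((a + b + c + d + e + f + g) *
        (a' + b' + c' + d' + e' + f' + g') - (a * a' + b * b' + c * c' + d * d' + e * e' +
          f * f' + g * g')) + F7_M a' b' c' d' e' f' g' a b c d e f g) * W +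
      F7 a' b' c' d' e' f' g' := by
  unfold F7 F7_D3 F7_E2 F7_M
  ring

/-- the coefficient of the second power, times two, at real parts -/
def F7_q (m a b c d e f g : ℤ) : ℤ :=
  2 * F7_E2 a b c d e f g + F7_M a b c d e f g (a - m) (b - 1) (c - 1) (d - 1) (e - 1) (f - 1)
    (g - 1)

/-- exactly one of the numbers is not zero -/
def F7_single (a b c d e f g : ℤ) : Prop :=
  (a ≠ 0 ∧ b = 0 ∧ c = 0 ∧ d = 0 ∧ e = 0 ∧ f = 0 ∧ g = 0) ∨
  (a = 0 ∧ b ≠ 0 ∧ c = 0 ∧ d = 0 ∧ e = 0 ∧ f = 0 ∧ g = 0) ∨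
  (a = 0 ∧ b = 0 ∧ c ≠ 0 ∧ d = 0 ∧ e = 0 ∧ f = 0 ∧ g = 0) ∨
  (a = 0 ∧ b = 0 ∧ c = 0 ∧ d ≠ 0 ∧ e = 0 ∧ f = 0 ∧ g = 0) ∨
  (a = 0 ∧ b = 0 ∧ c = 0 ∧ d = 0 ∧ e ≠ 0 ∧ f = 0 ∧ g = 0) ∨
  (a = 0 ∧ b = 0 ∧ c = 0 ∧ d = 0 ∧ e = 0 ∧ f ≠ 0 ∧ g = 0) ∨
  (a = 0 ∧ b = 0 ∧ c = 0 ∧ d = 0 ∧ e = 0 ∧ f = 0 ∧ g ≠ 0)

/-- exactly one of the numbers is zero -/
def F7_five (b c d e f g : ℤ) : Prop :=
  (b = 0 ∧ c ≠ 0 ∧ d ≠ 0 ∧ e ≠ 0 ∧ f ≠ 0 ∧ g ≠ 0) ∨
  (b ≠ 0 ∧ c = 0 ∧ d ≠ 0 ∧ e ≠ 0 ∧ f ≠ 0 ∧ g ≠ 0) ∨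
  (b ≠ 0 ∧ c ≠ 0 ∧ d = 0 ∧ e ≠ 0 ∧ f ≠ 0 ∧ g ≠ 0) ∨
  (b ≠ 0 ∧ c ≠ 0 ∧ d ≠ 0 ∧ e = 0 ∧ f ≠ 0 ∧ g ≠ 0) ∨
  (b ≠ 0 ∧ c ≠ 0 ∧ d ≠ 0 ∧ e ≠ 0 ∧ f = 0 ∧ g ≠ 0) ∨
  (b ≠ 0 ∧ c ≠ 0 ∧ d ≠ 0 ∧ e ≠ 0 ∧ f ≠ 0 ∧ g = 0)

instance (a b c d e f g : ℤ) : Decidable (F7_single a b c d e f g) := by
  unfold F7_single
  infer_instance

instance (b c d e f g : ℤ) : Decidable (F7_five b c d e f g) := by
  unfold F7_five
  infer_instance

/-- the conclusion of the enumeration -/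
def F7_ok (m a b c d e f g : ℤ) : Prop :=
  (a = 0 ∧ b = 0 ∧ c = 0 ∧ d = 0 ∧ e = 0 ∧ f = 0 ∧ g = 0) ∨
  F7_D3 a b c d e f g ≠ 0 ∨ F7_q m a b c d e f g ≠ 0 ∨ F7_single a b c d e f g ∨
  (m = 2 ∧ (a = 2 ∨ a = -2) ∧ F7_five b c d e f g)

instance (m a b c d e f g : ℤ) : Decidable (F7_ok m a b c d e f g) := by
  unfold F7_ok
  infer_instance

/-- the signs -/
def F7_sg (i : Fin 3) : ℤ := (i.1 : ℤ) - 1

/-- the sums of at most two signs -/
def F7_s2 (i : Fin 5) : ℤ := (i.1 : ℤ) - 2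

theorem F7_enum1 : ∀ a b c d e f g : Fin 3,
    F7_ok 1 (F7_sg a) (F7_sg b) (F7_sg c) (F7_sg d) (F7_sg e) (F7_sg f) (F7_sg g) := by
  decide +kernel

theorem F7_enum2 : ∀ (a : Fin 5) (b c d e f g : Fin 3),
    F7_ok 2 (F7_s2 a) (F7_sg b) (F7_sg c) (F7_sg d) (F7_sg e) (F7_sg f) (F7_sg g) := by
  decide +kernel

/-! ### the coefficients -/

/-- the sign of an exponent of maximal size -/
def F7_a (d : ℕ) (n : ℤ) : ℤ := if n = d then 1 else if n = -d then -1 else 0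

/-- the bounded part -/
noncomputable def F7_b (d : ℕ) (n : ℤ) (z : ℂ) : ℂ :=
  if n = d then 0 else if n = -d then -1 else (z ^ n - 1)⁻¹

theorem F7_a_mem (d : ℕ) (n : ℤ) : ∃ i : Fin 3, F7_sg i = F7_a d n := by
  unfold F7_a
  split_ifs
  · exact ⟨2, rfl⟩
  · exact ⟨0, rfl⟩
  · exact ⟨1, rfl⟩

theorem F7_a_ne (d : ℕ) (hd : 0 < d) (n : ℤ) : F7_a d n ≠ 0 ↔ |n| = d := by
  unfold F7_a
  have hd' : (0 : ℤ) < d := by exact_mod_cast hd
  split_ifs with h1 h2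
  · refine ⟨fun _ => ?_, fun _ => one_ne_zero⟩
    rw [h1, abs_of_pos hd']
  · refine ⟨fun _ => ?_, fun _ => by norm_num⟩
    rw [h2, abs_neg, abs_of_pos hd']
  · refine ⟨fun h => absurd rfl h, fun h => ?_⟩
    rcases abs_choice n with h3 | h3
    · exact absurd (h3.symm.trans h) h1
    · exact absurd (by rw [← h, h3, neg_neg]) h2

theorem F7_a_cases (d : ℕ) (n : ℤ) :
    (F7_a d n = 1 ∧ n = d) ∨ (F7_a d n = -1 ∧ n = -d) ∨ F7_a d n = 0 := by
  unfold F7_a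
  split_ifs with h1 h2
  · exact Or.inl ⟨rfl, h1⟩
  · exact Or.inr (Or.inl ⟨rfl, h2⟩)
  · exact Or.inr (Or.inr rfl)

theorem F7_split (d : ℕ) (n : ℤ) (z : ℂ) (hz : z ≠ 0) (hzd : z ^ d ≠ 1) :
    (z ^ n - 1)⁻¹ = (F7_a d n : ℂ) * (z ^ d - 1)⁻¹ + F7_b d n z := by
  unfold F7_a F7_b
  have h0 : z ^ d ≠ 0 := pow_ne_zero _ hz
  have h1 : z ^ d - 1 ≠ 0 := sub_ne_zero.2 hzd
  split_ifs with h2 h3
  · rw [h2, zpow_natCast]
    push_cast
    ring
  · have h4 : (z ^ d)⁻¹ - 1 ≠ 0 := by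
      intro h5
      apply hzd
      have h6 : (z ^ d)⁻¹ = 1 := sub_eq_zero.1 h5
      rwa [inv_eq_one] at h6
    rw [h3, zpow_neg, zpow_natCast]
    have h7 : 1 - z ^ d ≠ 0 := sub_ne_zero.2 (Ne.symm hzd)
    push_cast
    have h8 : (z ^ d)⁻¹ - 1 = (1 - z ^ d) / z ^ d := by
      field_simp
    rw [h8]
    have h9 : z ^ d - 1 = -(1 - z ^ d) := by ring
    rw [h9]
    field_simp
    ring
  · push_cast
    ring

theorem F7_re (u : ℂ) (hu : ‖u‖ = 1) (h1 : u ≠ 1) : ((u - 1)⁻¹).re = -1 / 2 := by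
  have h2 : u.re * u.re + u.im * u.im = 1 := by
    have := Complex.normSq_eq_norm_sq u
    rw [hu, Complex.normSq_apply] at this
    linarith
  have h3 : Complex.normSq (u - 1) = 2 - 2 * u.re := by
    rw [Complex.normSq_apply, Complex.sub_re, Complex.sub_im, Complex.one_re, Complex.one_im]
    nlinarith
  have h4 : 2 - 2 * u.re ≠ 0 := by
    rw [← h3]
    exact (Complex.normSq_pos.2 (sub_ne_zero.2 h1)).ne'
  rw [Complex.inv_re, h3, Complex.sub_re, Complex.one_re, div_eq_div_iff h4 (by norm_num)]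
  ring

/-- the point of the circle -/
noncomputable def F7_z (d : ℕ) : ℂ := Complex.exp (2 * Real.pi * Complex.I / d)

theorem F7_z_prim (d : ℕ) (hd : 0 < d) : IsPrimitiveRoot (F7_z d) d :=
  Complex.isPrimitiveRoot_exp d hd.ne'

theorem F7_z_norm (d : ℕ) (hd : 0 < d) : ‖F7_z d‖ = 1 :=
  (F7_z_prim d hd).norm'_eq_one hd.ne'

theorem F7_z_ne (d : ℕ) (hd : 0 < d) (n : ℤ) (hn : n ≠ 0) (h : |n| < d) : F7_z d ^ n ≠ 1 := by
  intro h1
  rw [(F7_z_prim d hd).zpow_eq_one_iff_dvd] at h1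
  exact hn (Int.eq_zero_of_abs_lt_dvd h1 h)

theorem F7_b_cont (d : ℕ) (hd : 0 < d) (n : ℤ) (hn : n ≠ 0) (h : |n| ≤ d) :
    ContinuousAt (F7_b d n) (F7_z d) := by
  have h0 : F7_z d ≠ 0 := by
    intro h1
    have := F7_z_norm d hd
    rw [h1, norm_zero] at this
    exact zero_ne_one this
  unfold F7_b
  split_ifs with h1 h2
  · exact continuousAt_const
  · exact continuousAt_const
  · have h3 : |n| < d := lt_of_le_of_ne h fun h4 => by
      rcases abs_choice n with h3 | h3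
      · exact h1 (h3.symm.trans h4)
      · exact h2 (by rw [← h4, h3, neg_neg])
    have h4 := F7_z_ne d hd n hn h3
    exact ((continuousAt_zpow₀ _ _ (Or.inl h0)).sub continuousAt_const).inv₀
      (sub_ne_zero.2 h4)

theorem F7_b_re (d : ℕ) (hd : 0 < d) (n : ℤ) (hn : n ≠ 0) (h : |n| ≤ d) :
    (F7_b d n (F7_z d)).re = ((F7_a d n : ℝ) - 1) / 2 := by
  unfold F7_b F7_a
  split_ifs with h1 h2
  · simp
  · rw [Complex.neg_re, Complex.one_re]
    push_cast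
    norm_num
  · have h3 : |n| < d := lt_of_le_of_ne h fun h4 => by
      rcases abs_choice n with h3 | h3
      · exact h1 (h3.symm.trans h4)
      · exact h2 (by rw [← h4, h3, neg_neg])
    rw [F7_re _ _ (F7_z_ne d hd n hn h3)]
    · push_cast
      norm_num
    · rw [norm_zpow, F7_z_norm d hd, one_zpow]

/-! ### asymptotics -/

theorem F7_asy (z₀ : ℂ) (V c2 c1 c0 : ℂ → ℂ) (c3 : ℂ) (hV : ContinuousAt V z₀) (hV0 : V z₀ = 0)
    (h2 : ContinuousAt c2 z₀) (h1 : ContinuousAt c1 z₀) (h0 : ContinuousAt c0 z₀)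
    (h : c3 ≠ 0 ∨ (c3 = 0 ∧ c2 z₀ ≠ 0) ∨ (c3 = 0 ∧ (∀ z, c2 z = 0) ∧ c1 z₀ ≠ 0)) :
    ∀ᶠ z in 𝓝 z₀, V z ≠ 0 →
      c3 * (V z)⁻¹ ^ 3 + c2 z * (V z)⁻¹ ^ 2 + c1 z * (V z)⁻¹ + c0 z ≠ 0 := by
  rcases h with h | ⟨h3, h⟩ | ⟨h3, h3', h⟩
  · have hc : ContinuousAt (fun z => c3 + c2 z * V z + c1 z * V z ^ 2 + c0 z * V z ^ 3) z₀ := by
      fun_prop
    have hne := hc.eventually_ne (y := 0) (by
      simp only [hV0]
      simpa using h)
    filter_upwards [hne] with z hz hVz h5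
    apply hz
    have h6 : c3 + c2 z * V z + c1 z * V z ^ 2 + c0 z * V z ^ 3 =
        (c3 * (V z)⁻¹ ^ 3 + c2 z * (V z)⁻¹ ^ 2 + c1 z * (V z)⁻¹ + c0 z) * V z ^ 3 := by
      field_simp
    rw [h6, h5, zero_mul]
  · have hc : ContinuousAt (fun z => c2 z + c1 z * V z + c0 z * V z ^ 2) z₀ := by
      fun_prop
    have hne := hc.eventually_ne (y := 0) (by
      simp only [hV0]
      simpa using h)
    filter_upwards [hne] with z hz hVz h5
    apply hz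
    have h6 : c2 z + c1 z * V z + c0 z * V z ^ 2 =
        (c3 * (V z)⁻¹ ^ 3 + c2 z * (V z)⁻¹ ^ 2 + c1 z * (V z)⁻¹ + c0 z) * V z ^ 2 := by
      rw [h3]
      field_simp
      ring
    rw [h6, h5, zero_mul]
  · have hc : ContinuousAt (fun z => c1 z + c0 z * V z) z₀ := by
      fun_prop
    have hne := hc.eventually_ne (y := 0) (by
      simp only [hV0]
      simpa using h)
    filter_upwards [hne] with z hz hVz h5
    apply hz
    have h6 : c1 z + c0 z * V z =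
        (c3 * (V z)⁻¹ ^ 3 + c2 z * (V z)⁻¹ ^ 2 + c1 z * (V z)⁻¹ + c0 z) * V z := by
      rw [h3, h3' z]
      field_simp
      ring
    rw [h6, h5, zero_mul]

theorem F7_three (x y w : ℂ) (hx : x.re ≤ -1) (hy : y.re ≤ -1) (hw : w.re ≤ -1) :
    (1 + x) * (1 + y) * (1 + w) - x * y * w ≠ 0 := by
  have key : ∀ v : ℂ, v.re ≤ -1 → ‖1 + v‖ < ‖v‖ := by
    intro v hv
    have h1 : ‖1 + v‖ ^ 2 < ‖v‖ ^ 2 := by
      rw [← Complex.normSq_eq_norm_sq, ← Complex.normSq_eq_norm_sq, Complex.normSq_apply,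
        Complex.normSq_apply, Complex.add_re, Complex.add_im, Complex.one_re, Complex.one_im]
      nlinarith
    exact lt_of_pow_lt_pow_left₀ 2 (norm_nonneg _) h1
  intro h
  have h1 := congrArg norm (sub_eq_zero.1 h)
  rw [norm_mul, norm_mul, norm_mul, norm_mul] at h1
  have h2 : ‖1 + x‖ * ‖1 + y‖ < ‖x‖ * ‖y‖ :=
    mul_lt_mul'' (key x hx) (key y hy) (norm_nonneg _) (norm_nonneg _)
  have h3 : ‖1 + x‖ * ‖1 + y‖ * ‖1 + w‖ < ‖x‖ * ‖y‖ * ‖w‖ :=
    mul_lt_mul'' h2 (key w hw) (by positivity) (norm_nonneg _)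
  exact absurd h1 h3.ne

/-- real parts of the second coefficient -/
theorem F7_c2 (m a b c d e f g : ℤ) (a' b' c' d' e' f' g' : ℂ)
    (ha : a'.re = ((a : ℝ) - m) / 2) (hb : b'.re = ((b : ℝ) - 1) / 2)
    (hc : c'.re = ((c : ℝ) - 1) / 2) (hd : d'.re = ((d : ℝ) - 1) / 2)
    (he : e'.re = ((e : ℝ) - 1) / 2) (hf : f'.re = ((f : ℝ) - 1) / 2)
    (hg : g'.re = ((g : ℝ) - 1) / 2) (hq : F7_q m a b c d e f g ≠ 0) :
    F7_E2 (a : ℂ) b c d e f g + F7_M (a : ℂ) b c d e f g a' b' c' d' e' f' g' ≠ 0 := by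
  intro h
  apply hq
  have key : ∀ v : ℂ, v = (v.re : ℂ) + (v.im : ℂ) * Complex.I := fun v => (Complex.re_add_im v).symm
  have h1 : F7_E2 (a : ℂ) b c d e f g + F7_M (a : ℂ) b c d e f g a' b' c' d' e' f' g' =
      (((F7_q m a b c d e f g : ℝ) / 2 : ℝ) : ℂ) +
        ((F7_M (a : ℝ) b c d e f g a'.im b'.im c'.im d'.im e'.im f'.im g'.im : ℝ) : ℂ) *
          Complex.I := by
    rw [key a', key b', key c', key d', key e', key f', key g', ha, hb, hc, hd, he, hf, hg]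
    simp only [Complex.add_im, Complex.ofReal_im, Complex.mul_im, Complex.ofReal_re,
      Complex.I_im, Complex.I_re, mul_one, mul_zero, add_zero, zero_add]
    unfold F7_q F7_E2 F7_M
    push_cast
    ring
  rw [h1] at h
  have h2 := congrArg Complex.re h
  simp only [Complex.add_re, Complex.ofReal_re, Complex.mul_re, Complex.I_re, Complex.ofReal_im,
    Complex.I_im, mul_zero, zero_mul, sub_zero, add_zero, Complex.zero_re] at h2
  have h3 : (F7_q m a b c d e f g : ℝ) = 0 := by linarith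
  exact_mod_cast h3

/-- the case of one class with exponents of maximal size -/
theorem F7_c1 (m a b c d e f g : ℤ) (hm : 1 ≤ m) (a' b' c' d' e' f' g' : ℂ)
    (ha : a'.re = ((a : ℝ) - m) / 2) (hb : b'.re = ((b : ℝ) - 1) / 2)
    (hc : c'.re = ((c : ℝ) - 1) / 2) (hd : d'.re = ((d : ℝ) - 1) / 2)
    (he : e'.re = ((e : ℝ) - 1) / 2) (hf : f'.re = ((f : ℝ) - 1) / 2)
    (hg : g'.re = ((g : ℝ) - 1) / 2) (hs : F7_single a b c d e f g) :
    F7_D3 (a : ℂ) b c d e f g = 0 ∧ (∀ a' b' c' d' e' f' g' : ℂ,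
      F7_E2 (a : ℂ) b c d e f g + F7_M (a : ℂ) b c d e f g a' b' c' d' e' f' g' = 0) ∧
    ((a : ℂ) + b + c + d + e + f + g) + (((a : ℂ) + b + c + d + e + f + g) *
        (a' + b' + c' + d' + e' + f' + g') - (a * a' + b * b' + c * c' + d * d' + e * e' +
          f * f' + g * g')) + F7_M a' b' c' d' e' f' g' (a : ℂ) b c d e f g ≠ 0 := by
  have hm' : (1 : ℝ) ≤ m := by exact_mod_cast hm
  rcases hs with ⟨h1, h2, h3, h4, h5, h6, h7⟩ | ⟨h1, h2, h3, h4, h5, h6, h7⟩ |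
    ⟨h1, h2, h3, h4, h5, h6, h7⟩ | ⟨h1, h2, h3, h4, h5, h6, h7⟩ | ⟨h1, h2, h3, h4, h5, h6, h7⟩ |
    ⟨h1, h2, h3, h4, h5, h6, h7⟩ | ⟨h1, h2, h3, h4, h5, h6, h7⟩
  · subst h2 h3 h4 h5 h6 h7
    push_cast at *
    refine ⟨by unfold F7_D3; ring, fun _ _ _ _ _ _ _ => by unfold F7_E2 F7_M; ring, ?_⟩
    have e1 := F7_three (b' + c') (d' + e') (f' + g') (by rw [Complex.add_re]; linarith)
      (by rw [Complex.add_re]; linarith) (by rw [Complex.add_re]; linarith)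
    have e2 : (a : ℂ) ≠ 0 := by exact_mod_cast h1
    have e3 := mul_ne_zero e2 e1
    intro h
    apply e3
    rw [← h]
    unfold F7_M
    ring
  · subst h1 h3 h4 h5 h6 h7
    push_cast at *
    refine ⟨by unfold F7_D3; ring, fun _ _ _ _ _ _ _ => by unfold F7_E2 F7_M; ring, ?_⟩
    have e1 := F7_three (a' + c') (d' + f') (e' + g') (by rw [Complex.add_re]; linarith)
      (by rw [Complex.add_re]; linarith) (by rw [Complex.add_re]; linarith)
    have e2 : (b : ℂ) ≠ 0 := by exact_mod_cast h2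
    have e3 := mul_ne_zero e2 e1
    intro h
    apply e3
    rw [← h]
    unfold F7_M
    ring
  · subst h1 h2 h4 h5 h6 h7
    push_cast at *
    refine ⟨by unfold F7_D3; ring, fun _ _ _ _ _ _ _ => by unfold F7_E2 F7_M; ring, ?_⟩
    have e1 := F7_three (a' + b') (d' + g') (e' + f') (by rw [Complex.add_re]; linarith)
      (by rw [Complex.add_re]; linarith) (by rw [Complex.add_re]; linarith)
    have e2 : (c : ℂ) ≠ 0 := by exact_mod_cast h3
    have e3 := mul_ne_zero e2 e1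
    intro h
    apply e3
    rw [← h]
    unfold F7_M
    ring
  · subst h1 h2 h3 h5 h6 h7
    push_cast at *
    refine ⟨by unfold F7_D3; ring, fun _ _ _ _ _ _ _ => by unfold F7_E2 F7_M; ring, ?_⟩
    have e1 := F7_three (a' + e') (b' + f') (c' + g') (by rw [Complex.add_re]; linarith)
      (by rw [Complex.add_re]; linarith) (by rw [Complex.add_re]; linarith)
    have e2 : (d : ℂ) ≠ 0 := by exact_mod_cast h4
    have e3 := mul_ne_zero e2 e1
    intro h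
    apply e3
    rw [← h]
    unfold F7_M
    ring
  · subst h1 h2 h3 h4 h6 h7
    push_cast at *
    refine ⟨by unfold F7_D3; ring, fun _ _ _ _ _ _ _ => by unfold F7_E2 F7_M; ring, ?_⟩
    have e1 := F7_three (a' + d') (b' + g') (c' + f') (by rw [Complex.add_re]; linarith)
      (by rw [Complex.add_re]; linarith) (by rw [Complex.add_re]; linarith)
    have e2 : (e : ℂ) ≠ 0 := by exact_mod_cast h5
    have e3 := mul_ne_zero e2 e1
    intro h
    apply e3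
    rw [← h]
    unfold F7_M
    ring
  · subst h1 h2 h3 h4 h5 h7
    push_cast at *
    refine ⟨by unfold F7_D3; ring, fun _ _ _ _ _ _ _ => by unfold F7_E2 F7_M; ring, ?_⟩
    have e1 := F7_three (a' + g') (b' + d') (c' + e') (by rw [Complex.add_re]; linarith)
      (by rw [Complex.add_re]; linarith) (by rw [Complex.add_re]; linarith)
    have e2 : (f : ℂ) ≠ 0 := by exact_mod_cast h6
    have e3 := mul_ne_zero e2 e1
    intro h
    apply e3
    rw [← h]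
    unfold F7_M
    ring
  · subst h1 h2 h3 h4 h5 h6
    push_cast at *
    refine ⟨by unfold F7_D3; ring, fun _ _ _ _ _ _ _ => by unfold F7_E2 F7_M; ring, ?_⟩
    have e1 := F7_three (a' + f') (b' + e') (c' + d') (by rw [Complex.add_re]; linarith)
      (by rw [Complex.add_re]; linarith) (by rw [Complex.add_re]; linarith)
    have e2 : (g : ℂ) ≠ 0 := by exact_mod_cast h7
    have e3 := mul_ne_zero e2 e1
    intro h
    apply e3
    rw [← h]
    unfold F7_M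
    ring

theorem F7_cs (n : ℤ) (z : ℂ) : cs [n] z = (z ^ n - 1)⁻¹ := by
  unfold cs
  simp

theorem F7_cs2 (n n' : ℤ) (z : ℂ) : cs [n, n'] z = (z ^ n - 1)⁻¹ + (z ^ n' - 1)⁻¹ := by
  unfold cs
  simp

/-- the points near `exp (2 pi i / d)` -/
theorem F7_near (hN : St_Near) (d : ℕ) (hd : 0 < d) (m a₁ : ℤ) (hm : m = 1 ∨ m = 2)
    (ha : |a₁| ≤ m)
    (w₁ b₁ : ℂ → ℂ) (hb₁ : ContinuousAt b₁ (F7_z d))
    (hb₁' : (b₁ (F7_z d)).re = ((a₁ : ℝ) - m) / 2) (u : Fin 6 → ℤ) (hu : ∀ j, u j ≠ 0)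
    (hud : ∀ j, |u j| ≤ d) (B : Finset ℤ) (hB : ∀ b ∈ B, b ≠ 0)
    (hw : ∀ z : ℂ, ‖z‖ = 1 → z ^ d ≠ 1 → (∀ b ∈ B, z ^ b ≠ 1) →
      w₁ z = (a₁ : ℂ) * (z ^ d - 1)⁻¹ + b₁ z)
    (hne : a₁ ≠ 0 ∨ ∃ j, |u j| = d)
    (hex : ¬ (m = 2 ∧ (a₁ = 2 ∨ a₁ = -2) ∧ F7_five (F7_a d (u 0)) (F7_a d (u 1))
      (F7_a d (u 2)) (F7_a d (u 3)) (F7_a d (u 4)) (F7_a d (u 5)))) :
    ∃ z : ℂ, ‖z‖ = 1 ∧ (∀ b ∈ B, z ^ b ≠ 1) ∧
      F7 (w₁ z) (cs [u 0] z) (cs [u 1] z) (cs [u 2] z) (cs [u 3] z) (cs [u 4] z)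
        (cs [u 5] z) ≠ 0 := by
  obtain ⟨α, hα⟩ : ∃ α : Fin 6 → ℤ, ∀ j, α j = F7_a d (u j) := ⟨_, fun _ => rfl⟩
  obtain ⟨β, hβ⟩ : ∃ β : Fin 6 → ℂ → ℂ, ∀ j, β j = F7_b d (u j) := ⟨_, fun _ => rfl⟩
  have hβc : ∀ j, ContinuousAt (β j) (F7_z d) := fun j => by
    rw [hβ]
    exact F7_b_cont d hd _ (hu j) (hud j)
  have hβr : ∀ j, (β j (F7_z d)).re = ((α j : ℝ) - 1) / 2 := fun j => by
    rw [hβ, hα]
    exact F7_b_re d hd _ (hu j) (hud j)
  have hm1 : (1 : ℤ) ≤ m := by rcases hm with h | h <;> omega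
  have hen : F7_ok m a₁ (α 0) (α 1) (α 2) (α 3) (α 4) (α 5) := by
    obtain ⟨i0, hi0⟩ := F7_a_mem d (u 0)
    obtain ⟨i1, hi1⟩ := F7_a_mem d (u 1)
    obtain ⟨i2, hi2⟩ := F7_a_mem d (u 2)
    obtain ⟨i3, hi3⟩ := F7_a_mem d (u 3)
    obtain ⟨i4, hi4⟩ := F7_a_mem d (u 4)
    obtain ⟨i5, hi5⟩ := F7_a_mem d (u 5)
    simp only [hα]
    rw [← hi0, ← hi1, ← hi2, ← hi3, ← hi4, ← hi5]
    rw [abs_le] at ha
    rcases hm with h | h
    · obtain ⟨i, hi⟩ : ∃ i : Fin 3, F7_sg i = a₁ := by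
        rw [h] at ha
        have : a₁ = -1 ∨ a₁ = 0 ∨ a₁ = 1 := by omega
        rcases this with h1 | h1 | h1
        · exact ⟨0, h1.symm⟩
        · exact ⟨1, h1.symm⟩
        · exact ⟨2, h1.symm⟩
      rw [h, ← hi]
      exact F7_enum1 i i0 i1 i2 i3 i4 i5
    · obtain ⟨i, hi⟩ : ∃ i : Fin 5, F7_s2 i = a₁ := by
        rw [h] at ha
        have : a₁ = -2 ∨ a₁ = -1 ∨ a₁ = 0 ∨ a₁ = 1 ∨ a₁ = 2 := by omega
        rcases this with h1 | h1 | h1 | h1 | h1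
        · exact ⟨0, h1.symm⟩
        · exact ⟨1, h1.symm⟩
        · exact ⟨2, h1.symm⟩
        · exact ⟨3, h1.symm⟩
        · exact ⟨4, h1.symm⟩
      rw [h, ← hi]
      exact F7_enum2 i i0 i1 i2 i3 i4 i5
  have hcase : F7_D3 a₁ (α 0) (α 1) (α 2) (α 3) (α 4) (α 5) ≠ 0 ∨
      F7_q m a₁ (α 0) (α 1) (α 2) (α 3) (α 4) (α 5) ≠ 0 ∨
      F7_single a₁ (α 0) (α 1) (α 2) (α 3) (α 4) (α 5) := by
    rcases hen with h | h | h | h | h
    · exfalso
      obtain ⟨h1, h2, h3, h4, h5, h6, h7⟩ := h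
      rcases hne with h8 | ⟨j, h8⟩
      · exact h8 h1
      · rw [← F7_a_ne d hd, ← hα] at h8
        fin_cases j
        · exact h8 h2
        · exact h8 h3
        · exact h8 h4
        · exact h8 h5
        · exact h8 h6
        · exact h8 h7
    · exact Or.inl h
    · exact Or.inr (Or.inl h)
    · exact Or.inr (Or.inr h)
    · simp only [hα] at h
      exact absurd h hex
  -- the functions
  obtain ⟨c3, hc3⟩ : ∃ c3 : ℂ, c3 = F7_D3 (a₁ : ℂ) (α 0) (α 1) (α 2) (α 3) (α 4) (α 5) :=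
    ⟨_, rfl⟩
  obtain ⟨c2, hc2⟩ : ∃ c2 : ℂ → ℂ, c2 = fun z =>
      F7_E2 (a₁ : ℂ) (α 0) (α 1) (α 2) (α 3) (α 4) (α 5) +
      F7_M (a₁ : ℂ) (α 0) (α 1) (α 2) (α 3) (α 4) (α 5) (b₁ z) (β 0 z) (β 1 z) (β 2 z) (β 3 z)
        (β 4 z) (β 5 z) := ⟨_, rfl⟩
  obtain ⟨c1, hc1⟩ : ∃ c1 : ℂ → ℂ, c1 = fun z =>
      ((a₁ : ℂ) + α 0 + α 1 + α 2 + α 3 + α 4 + α 5) +
        (((a₁ : ℂ) + α 0 + α 1 + α 2 + α 3 + α 4 + α 5) *
        (b₁ z + β 0 z + β 1 z + β 2 z + β 3 z + β 4 z + β 5 z) - (a₁ * b₁ z + α 0 * β 0 z +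
          α 1 * β 1 z + α 2 * β 2 z + α 3 * β 3 z + α 4 * β 4 z + α 5 * β 5 z)) +
        F7_M (b₁ z) (β 0 z) (β 1 z) (β 2 z) (β 3 z) (β 4 z) (β 5 z) (a₁ : ℂ) (α 0) (α 1) (α 2)
          (α 3) (α 4) (α 5) := ⟨_, rfl⟩
  obtain ⟨c0, hc0⟩ : ∃ c0 : ℂ → ℂ, c0 = fun z =>
      F7 (b₁ z) (β 0 z) (β 1 z) (β 2 z) (β 3 z) (β 4 z) (β 5 z) := ⟨_, rfl⟩
  have k0 := hβc 0
  have k1 := hβc 1
  have k2 := hβc 2
  have k3 := hβc 3
  have k4 := hβc 4
  have k5 := hβc 5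
  have hC2 : ContinuousAt c2 (F7_z d) := by
    rw [hc2]
    unfold F7_E2 F7_M
    fun_prop
  have hC1 : ContinuousAt c1 (F7_z d) := by
    rw [hc1]
    unfold F7_M
    fun_prop
  have hC0 : ContinuousAt c0 (F7_z d) := by
    rw [hc0]
    unfold F7
    fun_prop
  have hasy := F7_asy (F7_z d) (fun z => z ^ d - 1) c2 c1 c0 c3 (by fun_prop)
    (by rw [(F7_z_prim d hd).pow_eq_one, sub_self]) hC2 hC1 hC0 (by
      by_cases h3 : c3 = 0
      · right
        rcases hcase with h | h | h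
        · exfalso
          apply h
          rw [hc3] at h3
          have : ((F7_D3 a₁ (α 0) (α 1) (α 2) (α 3) (α 4) (α 5) : ℤ) : ℂ) = 0 := by
            rw [← h3]
            unfold F7_D3
            push_cast
            ring
          exact_mod_cast this
        · left
          refine ⟨h3, ?_⟩
          rw [hc2]
          exact F7_c2 m a₁ _ _ _ _ _ _ _ _ _ _ _ _ _ hb₁' (hβr 0) (hβr 1) (hβr 2) (hβr 3)
            (hβr 4) (hβr 5) h
        · right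
          obtain ⟨-, e2, e3⟩ := F7_c1 m a₁ _ _ _ _ _ _ hm1 _ _ _ _ _ _ _ hb₁' (hβr 0) (hβr 1)
            (hβr 2) (hβr 3) (hβr 4) (hβr 5) h
          refine ⟨h3, fun z => ?_, ?_⟩
          · rw [hc2]
            exact e2 _ _ _ _ _ _ _
          · rw [hc1]
            exact e3
      · exact Or.inl h3)
  obtain ⟨U, hU, hUo, hUz⟩ := mem_nhds_iff.1 hasy
  obtain ⟨z, hzU, hz1, hzz, hzB⟩ := hN (F7_z d) U (insert (d : ℤ) B) (F7_z_norm d hd) hUo hUz
    (by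
      intro b hb
      rcases Finset.mem_insert.1 hb with h | h
      · rw [h]
        exact_mod_cast hd.ne'
      · exact hB b h)
  have hzd : z ^ d ≠ 1 := by
    have := hzB d (Finset.mem_insert_self _ _)
    rwa [zpow_natCast] at this
  have hzB' : ∀ b ∈ B, z ^ b ≠ 1 := fun b hb => hzB b (Finset.mem_insert_of_mem hb)
  have hz0 : z ≠ 0 := by
    intro h
    rw [h, norm_zero] at hz1
    exact zero_ne_one hz1
  refine ⟨z, hz1, hzB', ?_⟩
  have h9 := hU hzU (sub_ne_zero.2 hzd)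
  intro h10
  apply h9
  rw [hw z hz1 hzd hzB', F7_cs, F7_cs, F7_cs, F7_cs, F7_cs, F7_cs,
    F7_split d (u 0) z hz0 hzd, F7_split d (u 1) z hz0 hzd, F7_split d (u 2) z hz0 hzd,
    F7_split d (u 3) z hz0 hzd, F7_split d (u 4) z hz0 hzd, F7_split d (u 5) z hz0 hzd,
    F7_expand, ← hα, ← hα, ← hα, ← hα, ← hα, ← hα, ← hβ, ← hβ, ← hβ, ← hβ, ← hβ, ← hβ] at h10
  rw [hc3, hc2, hc1, hc0]
  exact h10

/-! ### the point `exp (pi i / d)` -/

/-- a value of `F7` with one free variable -/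
theorem F7_free (x : ℂ) (hx : x.re = -1 / 2) (b c d e f g : ℂ)
    (h : (b = x ∧ c = -1 / 2 ∧ d = -1 / 2 ∧ e = -1 / 2 ∧ f = -1 / 2 ∧ g = -1 / 2) ∨
      (b = -1 / 2 ∧ c = x ∧ d = -1 / 2 ∧ e = -1 / 2 ∧ f = -1 / 2 ∧ g = -1 / 2) ∨
      (b = -1 / 2 ∧ c = -1 / 2 ∧ d = x ∧ e = -1 / 2 ∧ f = -1 / 2 ∧ g = -1 / 2) ∨
      (b = -1 / 2 ∧ c = -1 / 2 ∧ d = -1 / 2 ∧ e = x ∧ f = -1 / 2 ∧ g = -1 / 2) ∨
      (b = -1 / 2 ∧ c = -1 / 2 ∧ d = -1 / 2 ∧ e = -1 / 2 ∧ f = x ∧ g = -1 / 2) ∨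
      (b = -1 / 2 ∧ c = -1 / 2 ∧ d = -1 / 2 ∧ e = -1 / 2 ∧ f = -1 / 2 ∧ g = x)) :
    F7 (-1) b c d e f g ≠ 0 := by
  have h1 : F7 (-1) b c d e f g = -5 / 4 + 3 / 2 * (x + 1 / 2) := by
    rcases h with ⟨rfl, rfl, rfl, rfl, rfl, rfl⟩ | ⟨rfl, rfl, rfl, rfl, rfl, rfl⟩ |
      ⟨rfl, rfl, rfl, rfl, rfl, rfl⟩ | ⟨rfl, rfl, rfl, rfl, rfl, rfl⟩ |
      ⟨rfl, rfl, rfl, rfl, rfl, rfl⟩ | ⟨rfl, rfl, rfl, rfl, rfl, rfl⟩ <;>
    · unfold F7
      ring
  intro h2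
  rw [h1] at h2
  have h3 := congrArg Complex.re h2
  have h4 : (-5 / 4 + 3 / 2 * (x + 1 / 2) : ℂ).re = -5 / 4 + 3 / 2 * (x.re + 1 / 2) := by
    have e1 : (-5 / 4 + 3 / 2 * (x + 1 / 2) : ℂ) =
        ((-5 / 4 + 3 / 2 * (x.re + 1 / 2) : ℝ) : ℂ) + ((3 / 2 * x.im : ℝ) : ℂ) * Complex.I := by
      have e2 : x = (x.re : ℂ) + (x.im : ℂ) * Complex.I := (Complex.re_add_im x).symm
      have e3 : (-5 / 4 + 3 / 2 * (x + 1 / 2) : ℂ) =
        -5 / 4 + 3 / 2 * (((x.re : ℂ) + (x.im : ℂ) * Complex.I) + 1 / 2) := by rw [← e2]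
      rw [e3]
      push_cast
      ring
    rw [e1]
    simp
  rw [h4, hx, Complex.zero_re] at h3
  norm_num at h3

theorem F7_zpow_d (d : ℕ) (hd : 0 < d) (n : ℤ) (h : |n| = d) : F7_z (2 * d) ^ n = -1 := by
  have h2 : F7_z (2 * d) ^ d = -1 := by
    unfold F7_z
    rw [← Complex.exp_nat_mul]
    have hd' : (d : ℂ) ≠ 0 := by exact_mod_cast hd.ne'
    have : (d : ℂ) * (2 * Real.pi * Complex.I / ((2 * d : ℕ) : ℂ)) = Real.pi * Complex.I := by
      push_cast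
      field_simp
    rw [this, Complex.exp_pi_mul_I]
  rcases abs_choice n with h3 | h3
  · rw [h3] at h
    rw [h, zpow_natCast, h2]
  · rw [h3] at h
    have : n = -(d : ℤ) := by linarith
    rw [this, zpow_neg, zpow_natCast, h2]
    norm_num

theorem F7_exc (hN : St_Near) (d : ℕ) (hd : 0 < d) (n : ℤ) (hn : |n| = d) (u : Fin 6 → ℤ)
    (hu : ∀ j, u j ≠ 0) (hud : ∀ j, |u j| ≤ d) (B : Finset ℤ) (hB : ∀ b ∈ B, b ≠ 0)
    (h : F7_five (F7_a d (u 0)) (F7_a d (u 1)) (F7_a d (u 2)) (F7_a d (u 3)) (F7_a d (u 4))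
      (F7_a d (u 5))) :
    ∃ z : ℂ, ‖z‖ = 1 ∧ (∀ b ∈ B, z ^ b ≠ 1) ∧
      F7 (cs [n, n] z) (cs [u 0] z) (cs [u 1] z) (cs [u 2] z) (cs [u 3] z) (cs [u 4] z)
        (cs [u 5] z) ≠ 0 := by
  have hd2 : 0 < 2 * d := by omega
  have hz1 := F7_z_norm (2 * d) hd2
  have hz0 : F7_z (2 * d) ≠ 0 := by
    intro h1
    rw [h1, norm_zero] at hz1
    exact zero_ne_one hz1
  have hne : ∀ k : ℤ, k ≠ 0 → |k| ≤ d → F7_z (2 * d) ^ k ≠ 1 := fun k hk hk' =>
    F7_z_ne (2 * d) hd2 k hk (by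
      push_cast
      have : (0 : ℤ) < d := by exact_mod_cast hd
      linarith)
  have hn0 : n ≠ 0 := by
    intro h1
    rw [h1, abs_zero] at hn
    have : (0 : ℤ) < d := by exact_mod_cast hd
    linarith
  have hcont : ∀ k : ℤ, k ≠ 0 → |k| ≤ d →
      ContinuousAt (fun z : ℂ => (z ^ k - 1)⁻¹) (F7_z (2 * d)) := fun k hk hk' =>
    ((continuousAt_zpow₀ _ _ (Or.inl hz0)).sub continuousAt_const).inv₀
      (sub_ne_zero.2 (hne k hk hk'))
  have hval : ∀ k : ℤ, |k| = d → (F7_z (2 * d) ^ k - 1)⁻¹ = -1 / 2 := fun k hk => by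
    rw [F7_zpow_d d hd k hk]
    norm_num
  have hval' : ∀ k : ℤ, F7_a d k ≠ 0 → (F7_z (2 * d) ^ k - 1)⁻¹ = -1 / 2 := fun k hk =>
    hval k ((F7_a_ne d hd k).1 hk)
  have hre : ∀ j, ((F7_z (2 * d) ^ u j - 1)⁻¹).re = -1 / 2 := fun j =>
    F7_re _ (by rw [norm_zpow, hz1, one_zpow]) (hne _ (hu j) (hud j))
  have hF : F7 ((F7_z (2 * d) ^ n - 1)⁻¹ + (F7_z (2 * d) ^ n - 1)⁻¹)
      ((F7_z (2 * d) ^ u 0 - 1)⁻¹) ((F7_z (2 * d) ^ u 1 - 1)⁻¹) ((F7_z (2 * d) ^ u 2 - 1)⁻¹)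
      ((F7_z (2 * d) ^ u 3 - 1)⁻¹) ((F7_z (2 * d) ^ u 4 - 1)⁻¹)
      ((F7_z (2 * d) ^ u 5 - 1)⁻¹) ≠ 0 := by
    rw [hval n hn]
    have h1 : (-1 / 2 + -1 / 2 : ℂ) = -1 := by norm_num
    rw [h1]
    rcases h with ⟨g0, g1, g2, g3, g4, g5⟩ | ⟨g0, g1, g2, g3, g4, g5⟩ |
      ⟨g0, g1, g2, g3, g4, g5⟩ | ⟨g0, g1, g2, g3, g4, g5⟩ | ⟨g0, g1, g2, g3, g4, g5⟩ |
      ⟨g0, g1, g2, g3, g4, g5⟩
    · exact F7_free _ (hre 0) _ _ _ _ _ _ (Or.inl ⟨rfl, hval' _ g1, hval' _ g2, hval' _ g3,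
        hval' _ g4, hval' _ g5⟩)
    · exact F7_free _ (hre 1) _ _ _ _ _ _ (Or.inr (Or.inl ⟨hval' _ g0, rfl, hval' _ g2,
        hval' _ g3, hval' _ g4, hval' _ g5⟩))
    · exact F7_free _ (hre 2) _ _ _ _ _ _ (Or.inr (Or.inr (Or.inl ⟨hval' _ g0, hval' _ g1, rfl,
        hval' _ g3, hval' _ g4, hval' _ g5⟩)))
    · exact F7_free _ (hre 3) _ _ _ _ _ _ (Or.inr (Or.inr (Or.inr (Or.inl ⟨hval' _ g0,
        hval' _ g1, hval' _ g2, rfl, hval' _ g4, hval' _ g5⟩))))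
    · exact F7_free _ (hre 4) _ _ _ _ _ _ (Or.inr (Or.inr (Or.inr (Or.inr (Or.inl ⟨hval' _ g0,
        hval' _ g1, hval' _ g2, hval' _ g3, rfl, hval' _ g5⟩)))))
    · exact F7_free _ (hre 5) _ _ _ _ _ _ (Or.inr (Or.inr (Or.inr (Or.inr (Or.inr ⟨hval' _ g0,
        hval' _ g1, hval' _ g2, hval' _ g3, hval' _ g4, rfl⟩)))))
  have kn := hcont n hn0 hn.le
  have k0 := hcont (u 0) (hu 0) (hud 0)
  have k1 := hcont (u 1) (hu 1) (hud 1)
  have k2 := hcont (u 2) (hu 2) (hud 2)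
  have k3 := hcont (u 3) (hu 3) (hud 3)
  have k4 := hcont (u 4) (hu 4) (hud 4)
  have k5 := hcont (u 5) (hu 5) (hud 5)
  have hC : ContinuousAt (fun z : ℂ => F7 ((z ^ n - 1)⁻¹ + (z ^ n - 1)⁻¹)
      ((z ^ u 0 - 1)⁻¹) ((z ^ u 1 - 1)⁻¹) ((z ^ u 2 - 1)⁻¹) ((z ^ u 3 - 1)⁻¹)
      ((z ^ u 4 - 1)⁻¹) ((z ^ u 5 - 1)⁻¹)) (F7_z (2 * d)) := by
    have key : ∀ a b c d' e f g : ℂ → ℂ, ContinuousAt a (F7_z (2 * d)) →
        ContinuousAt b (F7_z (2 * d)) → ContinuousAt c (F7_z (2 * d)) →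
        ContinuousAt d' (F7_z (2 * d)) → ContinuousAt e (F7_z (2 * d)) →
        ContinuousAt f (F7_z (2 * d)) → ContinuousAt g (F7_z (2 * d)) →
        ContinuousAt (fun z => F7 (a z + a z) (b z) (c z) (d' z) (e z) (f z) (g z))
          (F7_z (2 * d)) := by
      intro a b c d' e f g _ _ _ _ _ _ _
      unfold F7
      fun_prop
    exact key _ _ _ _ _ _ _ kn k0 k1 k2 k3 k4 k5
  obtain ⟨U, hU, hUo, hUz⟩ := mem_nhds_iff.1 (hC.eventually_ne hF)
  obtain ⟨z, hzU, hz1', hzz, hzB⟩ := hN _ U B hz1 hUo hUz hB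
  refine ⟨z, hz1', hzB, ?_⟩
  rw [F7_cs2, F7_cs, F7_cs, F7_cs, F7_cs, F7_cs, F7_cs]
  exact hU hzU

/-! ### the theorem -/

theorem thm_F7 (hN : St_Near) : St_F7 := by
  intro l u B hl hl2 hl0 hu0 hB hlB huB
  have huf : ∃ D : ℕ, 0 < D ∧ (∀ j, |u j| ≤ D) ∧ ∃ j, |u j| = D := by
    obtain ⟨j, hj⟩ := Finite.exists_max fun j => |u j|
    refine ⟨(u j).natAbs, Int.natAbs_pos.2 (hu0 j), fun i => ?_, j, ?_⟩
    · rw [Int.natCast_natAbs]
      exact hj i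
    · rw [Int.natCast_natAbs]
  obtain ⟨D, hD, huD, hjD⟩ := huf
  rcases l with _ | ⟨n, _ | ⟨n', _ | ⟨n'', l⟩⟩⟩
  · exact absurd rfl hl
  · -- one element
    have hn0 : n ≠ 0 := hl0 n (by simp)
    have hnB : n ∈ B := hlB n (by simp)
    obtain ⟨d, hd⟩ : ∃ d : ℕ, d = max D n.natAbs := ⟨_, rfl⟩
    have hd0 : 0 < d := by omega
    have hDd : (D : ℤ) ≤ d := by omega
    have hnd : |n| ≤ d := by
      rw [Int.abs_eq_natAbs]
      omega
    have hud : ∀ j, |u j| ≤ d := fun j => (huD j).trans hDd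
    have hmax : F7_a d n ≠ 0 ∨ ∃ j, |u j| = d := by
      rcases le_total D n.natAbs with h | h
      · left
        rw [F7_a_ne d hd0, Int.abs_eq_natAbs]
        omega
      · right
        obtain ⟨j, hj⟩ := hjD
        exact ⟨j, by rw [hj]; omega⟩
    refine F7_near hN d hd0 1 (F7_a d n) (Or.inl rfl) ?_ (fun z => cs [n] z) (F7_b d n)
      (F7_b_cont d hd0 n hn0 hnd) ?_ u hu0 hud B hB ?_ hmax ?_
    · unfold F7_a
      split_ifs <;> simp
    · rw [F7_b_re d hd0 n hn0 hnd]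
      push_cast
      ring
    · intro z hz hzd hzB
      rw [F7_cs]
      refine F7_split d n z ?_ hzd
      intro h
      rw [h, norm_zero] at hz
      exact zero_ne_one hz
    · rintro ⟨h, -⟩
      norm_num at h
  · -- two elements
    have hn0 : n ≠ 0 := hl0 n (by simp)
    have hn0' : n' ≠ 0 := hl0 n' (by simp)
    have hnB : n ∈ B := hlB n (by simp)
    by_cases hop : n' = -n
    · -- opposite exponents
      refine F7_near hN D hD 2 0 (Or.inr rfl) (by norm_num) (fun z => cs [n, n'] z)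
        (fun _ => -1) continuousAt_const (by norm_num) u hu0 huD B hB ?_ (Or.inr hjD) ?_
      · intro z hz hzd hzB
        have hz0 : z ≠ 0 := by
          intro h
          rw [h, norm_zero] at hz
          exact zero_ne_one hz
        have h1 : z ^ n - 1 ≠ 0 := sub_ne_zero.2 (hzB n hnB)
        have h2 : z ^ n ≠ 0 := zpow_ne_zero _ hz0
        simp only [F7_cs2]
        rw [hop, zpow_neg]
        have h3 : (z ^ n)⁻¹ - 1 = -(z ^ n - 1) / z ^ n := by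
          field_simp
          ring
        rw [h3]
        push_cast
        field_simp
        ring
      · rintro ⟨-, h | h, -⟩ <;> norm_num at h
    · obtain ⟨d, hd⟩ : ∃ d : ℕ, d = max D (max n.natAbs n'.natAbs) := ⟨_, rfl⟩
      have hd0 : 0 < d := by omega
      have hDd : (D : ℤ) ≤ d := by omega
      have hnd : |n| ≤ d := by
        rw [Int.abs_eq_natAbs]
        omega
      have hnd' : |n'| ≤ d := by
        rw [Int.abs_eq_natAbs]
        omega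
      have hud : ∀ j, |u j| ≤ d := fun j => (huD j).trans hDd
      by_cases hex : (F7_a d n + F7_a d n' = 2 ∨ F7_a d n + F7_a d n' = -2) ∧
          F7_five (F7_a d (u 0)) (F7_a d (u 1)) (F7_a d (u 2)) (F7_a d (u 3)) (F7_a d (u 4))
            (F7_a d (u 5))
      · obtain ⟨h1, h2⟩ := hex
        have h3 : n' = n ∧ |n| = d := by
          rcases F7_a_cases d n with ⟨e1, e2⟩ | ⟨e1, e2⟩ | e1 <;>
          rcases F7_a_cases d n' with ⟨e3, e4⟩ | ⟨e3, e4⟩ | e3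
          · exact ⟨e4.trans e2.symm, (F7_a_ne d hd0 n).1 (by rw [e1]; norm_num)⟩
          · omega
          · omega
          · omega
          · exact ⟨e4.trans e2.symm, (F7_a_ne d hd0 n).1 (by rw [e1]; norm_num)⟩
          · omega
          · omega
          · omega
          · omega
        obtain ⟨h3, h4⟩ := h3
        rw [h3]
        exact F7_exc hN d hd0 n h4 u hu0 hud B hB h2
      · have hmax : F7_a d n + F7_a d n' ≠ 0 ∨ ∃ j, |u j| = d := by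
          by_cases h : D = d
          · right
            obtain ⟨j, hj⟩ := hjD
            exact ⟨j, by rw [hj, h]⟩
          · left
            have h5 : F7_a d n ≠ 0 ∨ F7_a d n' ≠ 0 := by
              rw [F7_a_ne d hd0, F7_a_ne d hd0, Int.abs_eq_natAbs, Int.abs_eq_natAbs]
              omega
            rcases F7_a_cases d n with ⟨e1, e2⟩ | ⟨e1, e2⟩ | e1 <;>
            rcases F7_a_cases d n' with ⟨e3, e4⟩ | ⟨e3, e4⟩ | e3
            · omega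
            · exact absurd (by rw [e2, e4]) hop
            · omega
            · exact absurd (by rw [e2, e4, neg_neg]) hop
            · omega
            · omega
            · omega
            · omega
            · omega
        refine F7_near hN d hd0 2 (F7_a d n + F7_a d n') (Or.inr rfl) ?_
          (fun z => cs [n, n'] z) (fun z => F7_b d n z + F7_b d n' z)
          ((F7_b_cont d hd0 n hn0 hnd).add (F7_b_cont d hd0 n' hn0' hnd')) ?_ u hu0 hud B hB ?_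
          hmax ?_
        · unfold F7_a
          split_ifs <;> norm_num
        · rw [Complex.add_re, F7_b_re d hd0 n hn0 hnd, F7_b_re d hd0 n' hn0' hnd']
          push_cast
          ring
        · intro z hz hzd hzB
          have hz0 : z ≠ 0 := by
            intro h
            rw [h, norm_zero] at hz
            exact zero_ne_one hz
          simp only [F7_cs2]
          rw [F7_split d n z hz0 hzd, F7_split d n' z hz0 hzd]
          push_cast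
          ring
        · rintro ⟨-, h⟩
          exact hex h
  · exfalso
    simp at hl2

end Pool.Agent.C8
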