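import Mathlib
import Pool.Agent.SPT.NZ

/-!
# C8: all patterns with at most eight different rows (helper3)

`V` is a vector space over the field with two elements, `X` a finite set of vectors `≠ 0`, and
`G = F_2^3`.  If the relations between the vectors of `X` form a space of dimension at most three, they
are given by the functionals `φ` on `G`: `c v = φ (D v)`, where `D v` is the point of the dual matroid
which belongs to `v`.  `∑ W spanning, ∏ v ∈ W, (x v - 1)` is then `∏ (x v - 1)` times a polynomial `F7` in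
the seven class sums `w y = ∑ (D v = y), 1 / (x v - 1)`.  For `|x v| = 1`, `x v ≠ 1`: `Re 1 / (x v - 1) = - 1 / 2`.
-/

set_option autoImplicit false

open Submodule

namespace Pool.Agent.C8

open Pool.Agent.SPT (PP Spans NonV NonVs)

/-- the space of the dual matroid -/
abbrev G := Fin 3 → ZMod 2

/-- `D v` are the points of the dual matroid -/
def DualOf {V : Type} [AddCommGroup V] [Module (ZMod 2) V] (X : Finset V) (D : V → G) : Prop :=
  (∀ φ : G →ₗ[ZMod 2] ZMod 2, ∑ v ∈ X, φ (D v) • v = 0) ∧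
    ∀ c : V → ZMod 2, ∑ v ∈ X, c v • v = 0 → ∃ φ : G →ₗ[ZMod 2] ZMod 2, ∀ v ∈ X, c v = φ (D v)

/-- **Module A** (dual points). PROOF. The kernel `K` of `(X → F_2) → V`, `c ↦ ∑ c v • v`, has dimension
`X.card - finrank (span X) ≤ 3`. Let `b 0, b 1, b 2` span `K` (a basis, and zeros), `D v = (b 0 v, b 1 v, b 2 v)`;
a functional `φ` is `φ t = ∑ φ (e i) * t i`. -/
def St_Dual : Prop :=
  ∀ (V : Type) [AddCommGroup V] [Module (ZMod 2) V] [DecidableEq V] (X : Finset V),
    X.card ≤ Module.finrank (ZMod 2) (span (ZMod 2) (X : Set V)) + 3 → ∃ D : V → G, DualOf X D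

/-- **Module A2**. A relation `∑ v ∈ S, v = 0` between different vectors `≠ 0` has no or at least three
vectors. Also: linear changes of `G`. PROOF. `S = {v ∈ X | φ (D v) ≠ 0}`. -/
def St_Cos : Prop :=
  ∀ (V : Type) [AddCommGroup V] [Module (ZMod 2) V] [DecidableEq V] (X : Finset V) (D : V → G),
    (0 : V) ∉ X → DualOf X D →
    (∀ φ : G →ₗ[ZMod 2] ZMod 2, (∃ v ∈ X, φ (D v) ≠ 0) →
      3 ≤ (X.filter fun v => φ (D v) ≠ 0).card) ∧
    ∀ g : G ≃ₗ[ZMod 2] G, DualOf X fun v => g (D v)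

/-- **Module A3**: two different points of `G` are moved to `e 0`, `e 1` by a linear automorphism. -/
def St_Move : Prop :=
  ∀ a b : G, a ≠ 0 → b ≠ 0 → a ≠ b →
    ∃ g : G ≃ₗ[ZMod 2] G, g a = ![1, 0, 0] ∧ g b = ![0, 1, 0]

/-- the sum of the products of the linearly independent sets of points of `F_2^3`; the points are
numbered `1 = ![1,0,0]`, `2 = ![0,1,0]`, `3 = ![1,1,0]`, `4 = ![0,0,1]`, `5 = ![1,0,1]`, `6 = ![0,1,1]`,
`7 = ![1,1,1]`; the lines are `123, 145, 167, 246, 257, 347, 356` (left out of the products of three) -/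
def F7 (a b c d e f g : ℂ) : ℂ :=
  1 + (a + b + c + d + e + f + g) +
    (a * (b + c + d + e + f + g) + b * (c + d + e + f + g) + c * (d + e + f + g) +
      d * (e + f + g) + e * (f + g) + f * g) +
    (a * b * (d + e + f + g) + a * c * (d + e + f + g) + a * d * (f + g) + a * e * (f + g) +
      b * c * (d + e + f + g) + b * d * (e + g) + b * e * f + b * f * g +
      c * d * (e + f) + c * e * g + c * f * g + d * e * (f + g) + d * f * g + e * f * g)

/-- **Module B** (the formula). PROOF. (1) for `W ⊆ X`: `Spans ⊥ X W` iff the points `D v`, `v ∈ X \ W`, are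
linearly independent (with multiplicity). If `W` spans and `∑ v ∈ S, D v = 0`, `∅ ≠ S ⊆ X \ W`, take `v0 ∈ S`
and the relation `v0 = ∑ w ∈ W, a w • w`, a functional `φ`; `0 = φ (∑ v ∈ S, D v) = 1`. Conversely there is `φ` with
`φ (D v0) = 1` and `φ (D v) = 0` for the other `v ∈ X \ W`, a relation which gives `v0 ∈ span W`.
(2) for every `g : Finset G → ℂ`, by induction on `X` (for all `g`; step: insert `a`, use
`g' I = if D a ∈ I then 0 else g (insert (D a) I)`):
`∑ J ⊆ X, D injective on J, g (D '' J) * ∏ v ∈ J, t v = ∑ I, g I * ∏ y ∈ I, ∑ v ∈ X, D v = y, t v`. -/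
def St_Form : Prop :=
  ∀ (V : Type) [AddCommGroup V] [Module (ZMod 2) V] [DecidableEq V] (X : Finset V) (D : V → G),
    DualOf X D → ∀ x : V → ℂ, (∀ v ∈ X, x v ≠ 1) → ∀ w : G → ℂ,
    (∀ y, w y = ∑ v ∈ X with D v = y, (x v - 1)⁻¹) →
    PP X ⊥ x = (∏ v ∈ X, (x v - 1)) * F7 (w ![1, 0, 0]) (w ![0, 1, 0]) (w ![1, 1, 0])
      (w ![0, 0, 1]) (w ![1, 0, 1]) (w ![0, 1, 1]) (w ![1, 1, 1])

/-- `m` is zero or at least three -/
def Z3 (m : ℕ) : Prop := m = 0 ∨ 3 ≤ m

/-- **Module C** (points `1` and `2` missing; `3` is the third point of their line, the other lines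
through `3` are `347` and `356`). PROOF. `F7 0 0 c d e f g =
(1 + d + g) (1 + e + f) (1 + c) + (1 + d + g) e f + (1 + e + f) d g`.
Case `m4 + m7 ≥ 3`, `m5 + m6 ≥ 3`, all four `≠ 0`: divide by `(1 + d + g) (1 + e + f)`:
`1 + c + q + q'`, `q = d g / (1 + d + g) = 1 / (Y - 1)`, `Y = (1 + d) (1 + g) / (d g)`, `|Y| < 1` because
`|1 + w| ≤ |w|` for `Re w ≤ - 1 / 2`, with `<` if `Re w ≤ - 1`; so `Re q < - 1 / 2` and the real part is
negative. If e.g. `d = 0`: `F7 = (1 + g) ((1 + c) (1 + e) (1 + f) - c e f)`; if `e = f = 0`: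
`F7 = (1 + c) (1 + d) (1 + g) - c d g`; then by absolute values. -/
def St_P5 : Prop :=
  ∀ (m3 m4 m5 m6 m7 : ℕ) (c d e f g : ℂ),
    c.re = - m3 / 2 → d.re = - m4 / 2 → e.re = - m5 / 2 → f.re = - m6 / 2 → g.re = - m7 / 2 →
    (m3 = 0 → c = 0) → (m4 = 0 → d = 0) → (m5 = 0 → e = 0) → (m6 = 0 → f = 0) → (m7 = 0 → g = 0) →
    Z3 (m4 + m5 + m6 + m7) → Z3 (m3 + m6 + m7) → Z3 (m3 + m5 + m7) → Z3 (m3 + m4 + m5) →
    Z3 (m3 + m4 + m6) → Z3 (m4 + m7) → Z3 (m5 + m6) →
    F7 0 0 c d e f g ≠ 0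

/-- the class sum of a list of exponents -/
noncomputable def cs (l : List ℤ) (z : ℂ) : ℂ := (l.map fun n => (z ^ n - 1)⁻¹).sum

/-- **Module N** (generic points near a point of the circle) -/
def St_Near : Prop :=
  ∀ (z₀ : ℂ) (U : Set ℂ) (B : Finset ℤ), ‖z₀‖ = 1 → IsOpen U → z₀ ∈ U → (∀ b ∈ B, b ≠ 0) →
    ∃ z ∈ U, ‖z‖ = 1 ∧ z ≠ z₀ ∧ ∀ b ∈ B, z ^ b ≠ 1

/-- **Module W** (the Wheatstone lemma; `K_4` with an edge of weight `- 1`).  The polynomial of `K_4` with
the weights `- 1` (edge `uv`), `x = up`, `z = uq`, `y = pv`, `w = qv`, `t = pq` is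
`- (8 - 2 (x + y + z + w) - (x - z) (y - w) - t (3 - x z - y w - x y z w))`.
PROOF. `A = 8 - 2 (..) - (x - z) (y - w)`, `B = 3 - x z - y w - x y z w`; `‖B‖ < ‖A‖` if `x, y, z, w ≠ 1`: with
`ζ = (1 + x) / (1 - x)` etc., `Re ζ ≥ 0`: `A' = 4 A / ∏ (1 - x)`, `B' = 4 B / ∏ (1 - x)` (polynomials in the `ζ`)
satisfy `‖A'‖² - ‖B'‖² = 4 Re (N conj (1 + P Q))`, `P = 1 + ζx + ζy`, `Q = 1 + ζz + ζw`,
`N = 1 + P Q + s + t + s t + ζx ζz t + ζy ζw s`, `s = ζx + ζz`, `t = ζy + ζw`, and as a polynomial in the real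
parts all the coefficients (polynomials in the imaginary parts) are nonnegative, the constant one
positive. The cases with one or two weights `1` in the same way (leading coefficients). -/
def St_Wheat : Prop :=
  ∀ x y z w t : ℂ, ‖x‖ ≤ 1 → ‖y‖ ≤ 1 → ‖z‖ ≤ 1 → ‖w‖ ≤ 1 → ‖t‖ ≤ 1 →
    (([x, y, z, w, t].filter fun s => s = 1).length ≤ 2) →
    8 - 2 * (x + y + z + w) - (x - z) * (y - w) - t * (3 - x * z - y * w - x * y * z * w) ≠ 0

/-- **Module D** (point `1` missing, `2` a single element with an exponent of maximal 2-adic valuation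
among the single ones, at most two classes with more than one element: `K_4`). The lines through `2`:
`246`, `257`, (1) `3`; through `3`: `347`, `356`. `x = 4`, `z = 6`, `y = 7`, `w = 5`, `t = 3`.
PROOF. Let `z₀ = exp (i π / 2 ^ v₂ r)`: `z₀ ^ r = - 1` and `z₀ ^ n ≠ 1` for the single exponents `n`. For the
effective weights `x = 1 + 1 / w` (`|x| ≤ 1` because `Re w ≤ - 1 / 2`): `F7 0 b c d e f g = ` product of the `w` times
the polynomial of `K_4`, in general (`b` arbitrary). The polynomial of `K_4` is `≠ 0` on the compact set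
`{z₀} × (closed disc)²` (Module W), so on a neighbourhood of `z₀` (`generalized_tube_lemma`); take `z` from
Module N. -/
def St_K4 : Prop :=
  ∀ (r : ℤ) (l : Fin 5 → List ℤ) (B : Finset ℤ), r ≠ 0 → (∀ j, l j ≠ []) →
    (∀ j, ∀ n ∈ l j, n ≠ 0) → ((Finset.univ.filter fun j => (l j).length ≠ 1).card ≤ 2) →
    (∀ j n, l j = [n] → padicValInt 2 n ≤ padicValInt 2 r) → (∀ b ∈ B, b ≠ 0) →
    r ∈ B → (∀ j, ∀ n ∈ l j, n ∈ B) →
    ∃ z : ℂ, ‖z‖ = 1 ∧ (∀ b ∈ B, z ^ b ≠ 1) ∧
      F7 0 (cs [r] z) (cs (l 0) z) (cs (l 1) z) (cs (l 2) z) (cs (l 3) z) (cs (l 4) z) ≠ 0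

/-- **Module E** (all seven points, one or two elements at the point `1`, one at each of the others).
PROOF. Suppose `F7 = 0` for all `z` on the circle with `z ^ b ≠ 1`. Write `w y = - (m y + i κ y) / 2`, `κ y` real,
`κ y = ∑ cot (n θ / 2)`. Real part: (R) `∑ lines λ, (c λ - 2) e_2 (κ | λ) = T`, `c λ` the number of the elements not on
`λ`, `T = D_3 (m) - 2 e_2 (m) + 4 e_1 (m) - 8` (`= 10` for `m = (2,1,..,1)`); imaginary part: (I)
`D_3 (κ) = ∑ T y κ y`. (`D_3` = sum over the 28 independent triples.)  If the two exponents at `1` are `n, - n` then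
`w 1 = - 1`, `κ 1 = 0` for all `z`; let `d` be the maximum of the `|exponents|` (of the six others in this case). At
`z → exp (2 π i / d)`: `κ y = α y * K + b y`, `K → ∞`, `b y` bounded, `α y` the sum of the signs of the exponents with
`|n| = d` at `y`. So `q α = 0` and `D_3 α = 0`, `q = ∑ (c λ - 2) e_2 (· | λ)`. By enumeration: only one `α y ≠ 0`, or
`|α 1| = 2` and exactly one of the others is `0`. First case: `F7` is affine in `w y` with the coefficient
`∏ (1 + W j) - ∏ W j ≠ 0`, `W j` the sums over the three lines through `y` without `y`, `Re W j ≤ - 1`; at the limit this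
has to be `0`. Second case: at `z = exp (i π / d)` all `κ` are `0` except one, against (R); take `z` near it from
Module N. -/
def St_F7 : Prop :=
  ∀ (l : List ℤ) (u : Fin 6 → ℤ) (B : Finset ℤ), l ≠ [] → l.length ≤ 2 → (∀ n ∈ l, n ≠ 0) →
    (∀ j, u j ≠ 0) → (∀ b ∈ B, b ≠ 0) → (∀ n ∈ l, n ∈ B) → (∀ j, u j ∈ B) →
    ∃ z : ℂ, ‖z‖ = 1 ∧ (∀ b ∈ B, z ^ b ≠ 1) ∧
      F7 (cs l z) (cs [u 0] z) (cs [u 1] z) (cs [u 2] z) (cs [u 3] z) (cs [u 4] z) (cs [u 5] z) ≠ 0

/-- **THE THEOREM**: corank at most three, at most eight vectors `≠ 0`.  (Assembly of A, A2, A3, B, C, D, E.) -/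
def St_Corank : Prop :=
  ∀ (V : Type) [AddCommGroup V] [Module (ZMod 2) V] [DecidableEq V] (X : Finset V),
    (X.erase 0).card ≤ 8 →
    (X.erase 0).card ≤ Module.finrank (ZMod 2) (span (ZMod 2) (X : Set V)) + 3 → NonV X

/-- **at most eight vectors `≠ 0`** (with `St_Rank4`) -/
def St_Card8 : Prop :=
  ∀ (V : Type) [AddCommGroup V] [Module (ZMod 2) V] [DecidableEq V] (X : Finset V),
    (X.erase 0).card ≤ 8 → NonV X

end Pool.Agent.C8
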