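import Mathlib
import Pool.Agent.C8.St

/-!
# C8, module B: the formula
-/

set_option autoImplicit false

open Submodule

namespace Pool.Agent.C8

open Pool.Agent.SPT (PP Spans NonV NonVs)

/-! ### numbering of the points -/

/-- the points of `G` -/
def Form_pt (k : Fin 8) : G :=
  ![if k.val % 2 = 1 then 1 else 0, if k.val / 2 % 2 = 1 then 1 else 0,
    if k.val / 4 = 1 then 1 else 0]

/-- the numbers of the points of `G` -/
def Form_no (y : G) : Fin 8 :=
  ⟨(y 0).val + 2 * (y 1).val + 4 * (y 2).val, by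
    have h0 := ZMod.val_lt (y 0)
    have h1 := ZMod.val_lt (y 1)
    have h2 := ZMod.val_lt (y 2)
    omega⟩

theorem Form_pt_no (y : G) : Form_pt (Form_no y) = y := by
  revert y
  decide

theorem Form_no_pt (k : Fin 8) : Form_no (Form_pt k) = k := by
  revert k
  decide

/-! ### independent sets of the dual matroid -/

/-- no sum over a nonempty subset vanishes -/
def Form_Ind {α : Type} (D : α → G) (J : Finset α) : Prop :=
  ∀ S ⊆ J, S.Nonempty → ∑ v ∈ S, D v ≠ 0

theorem Form_spans_ind {V : Type} [AddCommGroup V] [Module (ZMod 2) V] [DecidableEq V]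
    (X : Finset V) (D : V → G) (hD : DualOf X D) (W : Finset V) (hW : W ⊆ X)
    (h : Spans ⊥ X W) : Form_Ind D (X \ W) := by
  intro S hS hne h0
  obtain ⟨v0, hv0⟩ := hne
  have hv0' := Finset.mem_sdiff.1 (hS hv0)
  have h1 : v0 ∈ span (ZMod 2) (W : Set V) := by
    unfold Spans at h
    rw [bot_sup_eq, bot_sup_eq] at h
    rw [h]
    exact subset_span hv0'.1
  obtain ⟨f, _, hf⟩ := Submodule.mem_span_finset.1 h1
  obtain ⟨φ, hφ⟩ := hD.2 (fun v => if v = v0 then 1 else if v ∈ W then f v else 0) (by
    rw [← Finset.sum_sdiff (Finset.singleton_subset_iff.2 hv0'.1), Finset.sum_singleton]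
    simp only [if_true, one_smul]
    have h2 : ∑ v ∈ X \ {v0}, (if v = v0 then (1 : ZMod 2) else if v ∈ W then f v else 0) • v =
        ∑ v ∈ W, f v • v := by
      symm
      rw [← Finset.sum_subset (s₁ := W) (s₂ := X \ {v0})]
      · refine Finset.sum_congr rfl fun v hv => ?_
        rw [if_neg (by rintro rfl; exact hv0'.2 hv), if_pos hv]
      · intro v hv
        rw [Finset.mem_sdiff, Finset.mem_singleton]
        exact ⟨hW hv, by rintro rfl; exact hv0'.2 hv⟩
      · intro v hv hv'
        rw [Finset.mem_sdiff, Finset.mem_singleton] at hv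
        rw [if_neg hv.2, if_neg hv', zero_smul]
    rw [h2, hf]
    have h3 : (2 : ZMod 2) = 0 := by decide
    rw [← two_smul (ZMod 2), h3, zero_smul])
  have h4 : φ (∑ v ∈ S, D v) = 1 := by
    rw [map_sum, ← Finset.sum_sdiff (Finset.singleton_subset_iff.2 hv0), Finset.sum_singleton,
      ← hφ v0 hv0'.1, Finset.sum_eq_zero, if_pos rfl, zero_add]
    intro v hv
    rw [Finset.mem_sdiff, Finset.mem_singleton] at hv
    have h5 := Finset.mem_sdiff.1 (hS hv.1)
    rw [← hφ v h5.1, if_neg hv.2, if_neg h5.2]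
  rw [h0, map_zero] at h4
  exact zero_ne_one h4

theorem Form_ind_spans {V : Type} [AddCommGroup V] [Module (ZMod 2) V] [DecidableEq V]
    (X : Finset V) (D : V → G) (hD : DualOf X D) (W : Finset V) (hW : W ⊆ X)
    (h : Form_Ind D (X \ W)) : Spans ⊥ X W := by
  have hkey : ∀ v ∈ X, v ∈ span (ZMod 2) (W : Set V) := by
    intro v0 hv0
    by_cases hv0W : v0 ∈ W
    · exact subset_span hv0W
    have hne : D v0 ∉ span (ZMod 2) (((X \ W).erase v0).image D : Set G) := by
      intro hmem
      rw [Finset.coe_image, Submodule.mem_span_image_finset_iff_exists_fun] at hmem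
      obtain ⟨c0, hc0⟩ := hmem
      obtain ⟨c, hc⟩ : ∃ c : V → ZMod 2, ∑ v ∈ (X \ W).erase v0, c v • D v = D v0 := by
        refine ⟨fun v => if h : v ∈ (X \ W).erase v0 then c0 ⟨v, h⟩ else 0, ?_⟩
        rw [← hc0, ← Finset.sum_coe_sort]
        refine Finset.sum_congr rfl fun v _ => ?_
        simp only [dif_pos v.2]
      refine h (insert v0 (((X \ W).erase v0).filter fun v => c v ≠ 0)) ?_ ⟨v0, Finset.mem_insert_self _ _⟩ ?_
      · intro v hv
        rw [Finset.mem_insert, Finset.mem_filter, Finset.mem_erase] at hv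
        rcases hv with rfl | hv
        · exact Finset.mem_sdiff.2 ⟨hv0, hv0W⟩
        · exact hv.1.2
      · rw [Finset.sum_insert (by simp), Finset.sum_filter]
        have h1 : ∑ v ∈ (X \ W).erase v0, (if c v ≠ 0 then D v else 0) =
            ∑ v ∈ (X \ W).erase v0, c v • D v := by
          refine Finset.sum_congr rfl fun v _ => ?_
          have h2 : c v = 0 ∨ c v = 1 := by
            generalize c v = t
            revert t
            decide
          rcases h2 with h2 | h2
          · rw [h2, zero_smul, if_neg (not_not.2 rfl)]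
          · rw [h2, one_smul, if_pos one_ne_zero]
        rw [h1, hc]
        have h3 : (2 : ZMod 2) = 0 := by decide
        rw [← two_smul (ZMod 2), h3, zero_smul]
    obtain ⟨φ, hφ0, hφ1⟩ := Submodule.exists_le_ker_of_notMem hne
    have hφv : φ (D v0) = 1 := by
      have h2 : ∀ t : ZMod 2, t ≠ 0 → t = 1 := by decide
      exact h2 _ hφ0
    have hrel := hD.1 φ
    have h1 : ∑ v ∈ X, φ (D v) • v = v0 + ∑ w ∈ W, φ (D w) • w := by
      rw [← Finset.sum_sdiff hW]
      congr 1
      rw [← Finset.sum_sdiff (Finset.singleton_subset_iff.2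
        (Finset.mem_sdiff.2 ⟨hv0, hv0W⟩)), Finset.sum_singleton, hφv, one_smul,
        Finset.sum_eq_zero, zero_add]
      intro v hv
      rw [Finset.mem_sdiff, Finset.mem_singleton] at hv
      have h4 : D v ∈ span (ZMod 2) (((X \ W).erase v0).image D : Set G) := by
        refine subset_span ?_
        rw [Finset.coe_image]
        exact ⟨v, Finset.mem_coe.2 (Finset.mem_erase.2 ⟨hv.2, hv.1⟩), rfl⟩
      have h5 : φ (D v) = 0 := LinearMap.mem_ker.1 (hφ1 h4)
      rw [h5, zero_smul]
    rw [h1] at hrel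
    have h6 : v0 = - ∑ w ∈ W, φ (D w) • w := eq_neg_of_add_eq_zero_left hrel
    rw [h6]
    refine neg_mem (Submodule.sum_mem _ fun w hw => Submodule.smul_mem _ _ (subset_span hw))
  unfold Spans
  rw [bot_sup_eq, bot_sup_eq]
  exact le_antisymm (span_mono (Finset.coe_subset.2 hW)) (span_le.2 fun v hv => hkey v hv)

/-! ### the expansion in the class sums -/

open Classical in
theorem Form_expand {α β : Type} [Fintype β] [DecidableEq α] [DecidableEq β] (D : α → β)
    (t : α → ℂ) (X : Finset α) : ∀ g : Finset β → ℂ,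
    ∑ J ∈ X.powerset, (if Set.InjOn D (J : Set α) then g (J.image D) else 0) * ∏ v ∈ J, t v =
      ∑ I : Finset β, g I * ∏ y ∈ I, ∑ v ∈ X with D v = y, t v := by
  induction X using Finset.induction_on with
  | empty =>
    intro g
    rw [Finset.powerset_empty, Finset.sum_singleton, Finset.sum_eq_single ∅]
    · simp
    · intro I _ hI
      obtain ⟨y, hy⟩ := Finset.nonempty_iff_ne_empty.2 hI
      rw [Finset.prod_eq_zero hy (by simp), mul_zero]
    · intro h
      exact absurd (Finset.mem_univ _) h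
  | insert a X ha ih =>
    intro g
    obtain ⟨g', hg'⟩ : ∃ g' : Finset β → ℂ, ∀ I, g' I = if D a ∈ I then 0 else g (insert (D a) I) :=
      ⟨_, fun _ => rfl⟩
    rw [Finset.sum_powerset_insert ha, ih g]
    have h1 : ∑ J ∈ X.powerset, (if Set.InjOn D ((insert a J : Finset α) : Set α) then
        g ((insert a J).image D) else 0) * ∏ v ∈ insert a J, t v =
        t a * ∑ J ∈ X.powerset, (if Set.InjOn D (J : Set α) then g' (J.image D) else 0) *
          ∏ v ∈ J, t v := by
      rw [Finset.mul_sum]
      refine Finset.sum_congr rfl fun J hJ => ?_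
      have haJ : a ∉ J := fun h => ha (Finset.mem_powerset.1 hJ h)
      rw [Finset.prod_insert haJ, Finset.image_insert, hg']
      have h2 : Set.InjOn D ((insert a J : Finset α) : Set α) ↔
          Set.InjOn D (J : Set α) ∧ D a ∉ J.image D := by
        rw [Finset.coe_insert, Set.injOn_insert (by simpa using haJ)]
        simp
      by_cases h3 : Set.InjOn D (J : Set α)
      · by_cases h4 : D a ∈ J.image D
        · rw [if_neg (by rw [h2]; exact fun h => h.2 h4), if_pos h3, if_pos h4]
          ring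
        · rw [if_pos (h2.2 ⟨h3, h4⟩), if_pos h3, if_neg h4]
          ring
      · rw [if_neg (by rw [h2]; exact fun h => h3 h.1), if_neg h3]
        ring
    rw [h1, ih g']
    have hu : (Finset.univ : Finset (Finset β)) = (Finset.univ : Finset β).powerset := by
      ext I
      simp
    have hv : (Finset.univ : Finset β) = insert (D a) (Finset.univ.erase (D a)) := by
      rw [Finset.insert_erase (Finset.mem_univ _)]
    rw [hu, hv, Finset.sum_powerset_insert (Finset.notMem_erase _ _),
      Finset.sum_powerset_insert (Finset.notMem_erase _ _),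
      Finset.sum_powerset_insert (Finset.notMem_erase _ _), mul_add, Finset.mul_sum,
      Finset.mul_sum, ← Finset.sum_add_distrib, ← Finset.sum_add_distrib, ← Finset.sum_add_distrib,
      ← Finset.sum_add_distrib]
    refine Finset.sum_congr rfl fun I hI => ?_
    have hI' : D a ∉ I := fun h => Finset.notMem_erase _ _ (Finset.mem_powerset.1 hI h)
    have h3 : ∏ y ∈ I, ∑ v ∈ insert a X with D v = y, t v =
        ∏ y ∈ I, ∑ v ∈ X with D v = y, t v := by
      refine Finset.prod_congr rfl fun y hy => ?_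
      rw [Finset.filter_insert, if_neg]
      rintro rfl
      exact hI' hy
    have h4 : ∑ v ∈ insert a X with D v = D a, t v = t a + ∑ v ∈ X with D v = D a, t v := by
      rw [Finset.filter_insert, if_pos rfl, Finset.sum_insert (by simp [ha])]
    rw [Finset.prod_insert hI', Finset.prod_insert hI', h3, h4, hg', hg', if_neg hI',
      if_pos (Finset.mem_insert_self _ _)]
    ring

/-! ### the independent sets of points -/

/-- the independent sets of points, as lists of numbers -/
def Form_ls : List (List (Fin 8)) :=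
  [[], [1], [2], [3], [4], [5], [6], [7],
    [1, 2], [1, 3], [1, 4], [1, 5], [1, 6], [1, 7], [2, 3], [2, 4], [2, 5], [2, 6], [2, 7],
    [3, 4], [3, 5], [3, 6], [3, 7], [4, 5], [4, 6], [4, 7], [5, 6], [5, 7], [6, 7],
    [1, 2, 4], [1, 2, 5], [1, 2, 6], [1, 2, 7], [1, 3, 4], [1, 3, 5], [1, 3, 6], [1, 3, 7],
    [1, 4, 6], [1, 4, 7], [1, 5, 6], [1, 5, 7], [2, 3, 4], [2, 3, 5], [2, 3, 6], [2, 3, 7],
    [2, 4, 5], [2, 4, 7], [2, 5, 6], [2, 6, 7], [3, 4, 5], [3, 4, 6], [3, 5, 7], [3, 6, 7],
    [4, 5, 6], [4, 5, 7], [4, 6, 7], [5, 6, 7]]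

/-- the circuits, as lists of numbers -/
def Form_cc : List (List (Fin 8)) :=
  [[0], [1, 2, 3], [1, 4, 5], [1, 6, 7], [2, 4, 6], [2, 5, 7], [3, 4, 7], [3, 5, 6],
    [4, 5, 6, 7], [2, 3, 6, 7], [2, 3, 4, 5], [1, 3, 5, 7], [1, 3, 4, 6], [1, 2, 5, 6],
    [1, 2, 4, 7]]

/-- exclusive or -/
def Form_xo (a b : Fin 8) : Fin 8 := ⟨(a.val ^^^ b.val) % 8, Nat.mod_lt _ (by norm_num)⟩

theorem Form_xo_pt : ∀ a b : Fin 8, Form_pt (Form_xo a b) = Form_pt a + Form_pt b := by
  decide +kernel

/-- exclusive or of a list -/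
def Form_xl (l : List (Fin 8)) : Fin 8 := l.foldr Form_xo 0

theorem Form_xl_pt (l : List (Fin 8)) : (l.map Form_pt).sum = Form_pt (Form_xl l) := by
  induction l with
  | nil => decide
  | cons a l ih =>
    rw [List.map_cons, List.sum_cons, ih, ← Form_xo_pt]
    rfl

theorem Form_pt_zero (k : Fin 8) : Form_pt k = 0 ↔ k = 0 := by
  revert k
  decide

set_option maxRecDepth 100000 in
theorem Form_d1 : ∀ I : Finset (Fin 8), (∃ l ∈ Form_ls, l.toFinset = I) ∨
    ∃ c ∈ Form_cc, c.toFinset ⊆ I := by
  decide +kernel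

theorem Form_d2 : ∀ c ∈ Form_cc, c ≠ [] ∧ c.Nodup ∧ Form_xl c = 0 := by
  decide +kernel

theorem Form_d3 : ∀ l ∈ Form_ls, l.Nodup ∧ ∀ m ∈ l.sublists, m ≠ [] → Form_xl m ≠ 0 := by
  decide +kernel

theorem Form_d4 : (Form_ls.map List.toFinset).Nodup := by
  decide +kernel

theorem Form_ind_iff (I : Finset (Fin 8)) :
    Form_Ind Form_pt I ↔ I ∈ Form_ls.map List.toFinset := by
  constructor
  · intro h
    rcases Form_d1 I with h1 | ⟨c, hc, hcI⟩
    · obtain ⟨l, hl, hlI⟩ := h1
      exact List.mem_map.2 ⟨l, hl, hlI⟩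
    · exfalso
      obtain ⟨h1, h2, h3⟩ := Form_d2 c hc
      refine h c.toFinset hcI (List.toFinset_nonempty_iff _ |>.2 h1) ?_
      rw [List.sum_toFinset _ h2, Form_xl_pt, h3]
      decide
  · intro h S hS hne h0
    obtain ⟨l, hl, rfl⟩ := List.mem_map.1 h
    obtain ⟨h1, h2⟩ := Form_d3 l hl
    have h3 : (l.filter fun k => k ∈ S).toFinset = S := by
      ext k
      rw [List.mem_toFinset, List.mem_filter]
      simp only [decide_eq_true_eq]
      exact ⟨fun h => h.2, fun h => ⟨List.mem_toFinset.1 (hS h), h⟩⟩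
    refine h2 (l.filter fun k => k ∈ S) (List.mem_sublists.2 List.filter_sublist) ?_ ?_
    · rintro h4
      rw [h4, List.toFinset_nil] at h3
      exact hne.ne_empty h3.symm
    · rw [← h3, List.sum_toFinset _ (h1.filter _), Form_xl_pt, Form_pt_zero] at h0
      exact h0

open Classical in
theorem Form_F7 (w : Fin 8 → ℂ) :
    ∑ I : Finset (Fin 8), (if Form_Ind Form_pt I then 1 else 0) * ∏ y ∈ I, w y =
      F7 (w 1) (w 2) (w 3) (w 4) (w 5) (w 6) (w 7) := by
  have h1 : ∑ I : Finset (Fin 8), (if Form_Ind Form_pt I then 1 else 0) * ∏ y ∈ I, w y =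
      ∑ I ∈ (Form_ls.map List.toFinset).toFinset, ∏ y ∈ I, w y := by
    rw [← Finset.sum_filter_add_sum_filter_not _ fun I => Form_Ind Form_pt I]
    have h2 : ∑ I with ¬ Form_Ind Form_pt I, (if Form_Ind Form_pt I then 1 else 0) *
        ∏ y ∈ I, w y = 0 := by
      refine Finset.sum_eq_zero fun I hI => ?_
      rw [if_neg (Finset.mem_filter.1 hI).2, zero_mul]
    rw [h2, add_zero]
    refine Finset.sum_congr ?_ fun I hI => ?_
    · ext I
      rw [Finset.mem_filter, Form_ind_iff, List.mem_toFinset]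
      simp
    · rw [List.mem_toFinset, ← Form_ind_iff] at hI
      rw [if_pos hI, one_mul]
  rw [h1, List.sum_toFinset _ Form_d4, List.map_map]
  have h2 : Form_ls.map ((fun I => ∏ y ∈ I, w y) ∘ List.toFinset) =
      Form_ls.map fun l => (l.map w).prod := by
    refine List.map_congr_left fun l hl => ?_
    exact List.prod_toFinset _ (Form_d3 l hl).1
  rw [h2]
  simp only [Form_ls, List.map_cons, List.map_nil, List.sum_cons, List.sum_nil, List.prod_cons,
    List.prod_nil, F7]
  ring

theorem thm_Form : St_Form := by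
  classical
  intro V _ _ _ X D hD x hx w hw
  have hprod : ∀ J ⊆ X, ∏ v ∈ X \ J, (x v - 1) =
      (∏ v ∈ X, (x v - 1)) * ∏ v ∈ J, (x v - 1)⁻¹ := by
    intro J hJ
    have h : ∏ v ∈ J, ((x v - 1) * (x v - 1)⁻¹) = 1 :=
      Finset.prod_eq_one fun v hv => mul_inv_cancel₀ (sub_ne_zero.2 (hx v (hJ hv)))
    rw [← Finset.prod_sdiff hJ, mul_assoc, ← Finset.prod_mul_distrib, h, mul_one]
  have h1 : PP X ⊥ x = (∏ v ∈ X, (x v - 1)) *
      ∑ J ∈ X.powerset, (if Form_Ind D J then 1 else 0) * ∏ v ∈ J, (x v - 1)⁻¹ := by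
    unfold PP
    rw [Finset.mul_sum]
    refine Finset.sum_nbij' (fun W => X \ W) (fun W => X \ W) ?_ ?_ ?_ ?_ ?_
    · intro W _
      exact Finset.mem_powerset.2 Finset.sdiff_subset
    · intro W _
      exact Finset.mem_powerset.2 Finset.sdiff_subset
    · intro W hW
      exact Finset.sdiff_sdiff_eq_self (Finset.mem_powerset.1 hW)
    · intro W hW
      exact Finset.sdiff_sdiff_eq_self (Finset.mem_powerset.1 hW)
    · intro W hW
      have hW' := Finset.mem_powerset.1 hW
      have h2 := hprod (X \ W) Finset.sdiff_subset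
      rw [Finset.sdiff_sdiff_eq_self hW'] at h2
      by_cases h3 : Spans ⊥ X W
      · rw [if_pos h3, if_pos (Form_spans_ind X D hD W hW' h3), one_mul, h2]
      · rw [if_neg h3, if_neg fun h => h3 (Form_ind_spans X D hD W hW' h)]
        ring
  rw [h1]
  congr 1
  have h2 := Form_expand (fun v => Form_no (D v)) (fun v => (x v - 1)⁻¹) X
    (fun I => if Form_Ind Form_pt I then 1 else 0)
  rw [Form_F7] at h2
  have h3 : ∀ k : Fin 8, (∑ v ∈ X with Form_no (D v) = k, (x v - 1)⁻¹) = w (Form_pt k) := by
    intro k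
    rw [hw]
    refine Finset.sum_congr ?_ fun _ _ => rfl
    ext v
    rw [Finset.mem_filter, Finset.mem_filter]
    refine and_congr_right fun _ => ?_
    constructor
    · rintro rfl
      rw [Form_pt_no]
    · intro h
      rw [h, Form_no_pt]
  rw [h3, h3, h3, h3, h3, h3, h3] at h2
  have h4 : ∑ J ∈ X.powerset, (if Form_Ind D J then 1 else 0) * ∏ v ∈ J, (x v - 1)⁻¹ =
      ∑ J ∈ X.powerset, (if Set.InjOn (fun v => Form_no (D v)) (J : Set V) then
        (if Form_Ind Form_pt (J.image fun v => Form_no (D v)) then (1 : ℂ) else 0) else 0) *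
        ∏ v ∈ J, (x v - 1)⁻¹ := by
    refine Finset.sum_congr rfl fun J _ => ?_
    congr 1
    have h5 : Form_Ind D J ↔ Set.InjOn (fun v => Form_no (D v)) (J : Set V) ∧
        Form_Ind Form_pt (J.image fun v => Form_no (D v)) := by
      constructor
      · intro h
        have hinj : Set.InjOn (fun v => Form_no (D v)) (J : Set V) := by
          intro a ha b hb hab
          by_contra hne
          refine h {a, b} ?_ ⟨a, by simp⟩ ?_
          · intro v hv
            rw [Finset.mem_insert, Finset.mem_singleton] at hv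
            rcases hv with rfl | rfl
            · exact ha
            · exact hb
          · rw [Finset.sum_pair hne]
            have h6 : D a = D b := by
              have h7 : Form_no (D a) = Form_no (D b) := hab
              rw [← Form_pt_no (D a), h7, Form_pt_no]
            have h3 : (2 : ZMod 2) = 0 := by decide
            rw [h6, ← two_smul (ZMod 2), h3, zero_smul]
        refine ⟨hinj, ?_⟩
        intro S hS hne
        obtain ⟨S', hS', rfl⟩ := Finset.subset_image_iff.1 hS
        rw [Finset.sum_image (hinj.mono (by exact_mod_cast hS'))]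
        simp only [Form_pt_no]
        exact h S' (by exact_mod_cast hS') (Finset.image_nonempty.1 hne)
      · rintro ⟨hinj, h⟩ S hS hne
        have h6 := h (S.image fun v => Form_no (D v)) (Finset.image_subset_image hS)
          (Finset.image_nonempty.2 hne)
        rw [Finset.sum_image (hinj.mono (by exact_mod_cast hS))] at h6
        simpa only [Form_pt_no] using h6
    by_cases h6 : Set.InjOn (fun v => Form_no (D v)) (J : Set V)
    · rw [if_pos h6]
      exact if_congr (h5.trans (and_iff_right h6)) rfl rfl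
    · rw [if_neg h6, if_neg fun h => h6 (h5.1 h).1]
  rw [h4, h2]
  have hp : Form_pt 1 = ![1, 0, 0] ∧ Form_pt 2 = ![0, 1, 0] ∧ Form_pt 3 = ![1, 1, 0] ∧
      Form_pt 4 = ![0, 0, 1] ∧ Form_pt 5 = ![1, 0, 1] ∧ Form_pt 6 = ![0, 1, 1] ∧
      Form_pt 7 = ![1, 1, 1] := by
    decide
  obtain ⟨p1, p2, p3, p4, p5, p6, p7⟩ := hp
  rw [p1, p2, p3, p4, p5, p6, p7]

end Pool.Agent.C8
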