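import Pool.Agent.C8.St

/-!
# C8, Module N: generic points near a point of the circle
-/

set_option autoImplicit false

namespace Pool.Agent.C8

private theorem Near_fin (b : ℤ) (hb : b ≠ 0) : {z : ℂ | z ^ b = 1}.Finite := by
  have hn : 0 < b.natAbs := Int.natAbs_pos.mpr hb
  refine Set.Finite.subset (Polynomial.nthRoots b.natAbs (1 : ℂ)).toFinset.finite_toSet ?_
  intro z hz
  rw [Finset.mem_coe, Multiset.mem_toFinset, Polynomial.mem_nthRoots hn]
  rcases Int.natAbs_eq b with h | h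
  · have h1 : z ^ (b.natAbs : ℤ) = 1 := by
      rw [← h]
      exact hz
    exact_mod_cast h1
  · have h1 : z ^ (-(b.natAbs : ℤ)) = 1 := by
      rw [← h]
      exact hz
    rw [zpow_neg, inv_eq_one] at h1
    exact_mod_cast h1

/-- **Module N** -/
theorem thm_Near : St_Near := by
  intro z₀ U B hz hU hz₀ hB
  have hF : ({z₀} ∪ ⋃ b ∈ (B : Set ℤ), {z : ℂ | z ^ b = 1}).Finite :=
    (Set.finite_singleton z₀).union
      (Set.Finite.biUnion B.finite_toSet fun b hb => Near_fin b (hB b hb))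
  let f : ℝ → ℂ := fun θ => z₀ * Complex.exp (θ * Complex.I)
  have hfc : Continuous f := by fun_prop
  have h0 : f 0 = z₀ := by simp [f]
  have hz0 : z₀ ≠ 0 := by
    intro h
    rw [h, norm_zero] at hz
    exact zero_ne_one hz
  obtain ⟨ε, hε, hball⟩ := Metric.isOpen_iff.mp (hU.preimage hfc) 0 (by
    show f 0 ∈ U
    rw [h0]
    exact hz₀)
  have hinf : (f '' Set.Ioo 0 (min ε 1)).Infinite := by
    refine Set.Infinite.image ?_ (Set.Ioo_infinite (by positivity))
    intro x hx y hy hxy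
    have h1 : Complex.exp (x * Complex.I) = Complex.exp (y * Complex.I) :=
      mul_left_cancel₀ hz0 hxy
    have h2 : Real.cos x = Real.cos y := by
      rw [← Complex.exp_ofReal_mul_I_re, ← Complex.exp_ofReal_mul_I_re, h1]
    have h3 : (1 : ℝ) ≤ Real.pi := by linarith [Real.pi_gt_three]
    have h4 : ∀ t ∈ Set.Ioo 0 (min ε 1), t ∈ Set.Icc 0 Real.pi := by
      rintro t ⟨h5, h6⟩
      exact ⟨h5.le, by linarith [min_le_right ε 1]⟩
    exact Real.injOn_cos (h4 x hx) (h4 y hy) h2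
  obtain ⟨z, ⟨θ, hθ, rfl⟩, hz2⟩ := hinf.exists_notMem_finite hF
  refine ⟨f θ, hball ?_, ?_, ?_, ?_⟩
  · rw [Metric.mem_ball, Real.dist_eq, sub_zero, abs_of_pos hθ.1]
    exact lt_of_lt_of_le hθ.2 (min_le_left _ _)
  · show ‖z₀ * Complex.exp (θ * Complex.I)‖ = 1
    rw [norm_mul, hz, one_mul, Complex.norm_exp_ofReal_mul_I]
  · intro h
    exact hz2 (Or.inl h)
  · intro b hb h
    exact hz2 (Or.inr (Set.mem_biUnion hb h))

end Pool.Agent.C8
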