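import Pool.Agent.C8.St

/-!
# C8, Module C: five points of the dual plane (complex numbers, case analysis)
-/

set_option autoImplicit false

namespace Pool.Agent.C8

private theorem P5_one (m : ℕ) (w : ℂ) (h : w.re = - m / 2) (h0 : m = 0 → w = 0) (hz : Z3 m) :
    1 + w ≠ 0 := by
  rcases hz with hm | hm
  · rw [h0 hm, add_zero]
    exact one_ne_zero
  · intro heq
    have h1 : (1 + w).re = 0 := by rw [heq, Complex.zero_re]
    rw [Complex.add_re, Complex.one_re, h] at h1
    have h2 : (3 : ℝ) ≤ m := by exact_mod_cast hm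
    linarith

private theorem P5_nsq (w : ℂ) :
    Complex.normSq (1 + w) = Complex.normSq w + (1 + 2 * w.re) := by
  simp only [Complex.normSq_apply, Complex.add_re, Complex.one_re, Complex.add_im, Complex.one_im]
  ring

private theorem P5_le (m : ℕ) (w : ℂ) (h : w.re = - m / 2) (hm : 1 ≤ m) :
    Complex.normSq (1 + w) ≤ Complex.normSq w := by
  rw [P5_nsq, h]
  have h2 : (1 : ℝ) ≤ m := by exact_mod_cast hm
  linarith

private theorem P5_lt (m : ℕ) (w : ℂ) (h : w.re = - m / 2) (hm : 2 ≤ m) :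
    Complex.normSq (1 + w) < Complex.normSq w := by
  rw [P5_nsq, h]
  have h2 : (2 : ℝ) ≤ m := by exact_mod_cast hm
  linarith

private theorem P5_pos (m : ℕ) (w : ℂ) (h : w.re = - m / 2) (hm : 1 ≤ m) :
    0 < Complex.normSq w := by
  rw [Complex.normSq_pos]
  intro h0
  rw [h0, Complex.zero_re] at h
  have h2 : (1 : ℝ) ≤ m := by exact_mod_cast hm
  linarith

private theorem P5_mul {a a' b b' : ℝ} (h1 : a ≤ a') (h2 : b ≤ b') (ha : 0 ≤ a) (hb : 0 ≤ b)
    (hb' : 0 < b') (ha' : 0 < a') (h : a < a' ∨ b < b') : a * b < a' * b' := by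
  rcases h with h | h
  · calc a * b ≤ a * b' := mul_le_mul_of_nonneg_left h2 ha
      _ < a' * b' := mul_lt_mul_of_pos_right h hb'
  · calc a * b ≤ a' * b := mul_le_mul_of_nonneg_right h1 hb
      _ < a' * b' := mul_lt_mul_of_pos_left h ha'

/-- two factors -/
private theorem P5_two (m n : ℕ) (y z : ℂ) (hy : y.re = - m / 2) (hz : z.re = - n / 2)
    (hm : 1 ≤ m) (hn : 1 ≤ n) (h : 3 ≤ m + n) :
    Complex.normSq (1 + y) * Complex.normSq (1 + z) < Complex.normSq y * Complex.normSq z := by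
  refine P5_mul (P5_le m y hy hm) (P5_le n z hz hn) (Complex.normSq_nonneg _)
    (Complex.normSq_nonneg _) (P5_pos n z hz hn) (P5_pos m y hy hm) ?_
  by_cases h2 : 2 ≤ m
  · exact Or.inl (P5_lt m y hy h2)
  · exact Or.inr (P5_lt n z hz (by omega))

/-- the quotient has real part `< - 1 / 2` -/
private theorem P5_quot (m n : ℕ) (y z : ℂ) (hy : y.re = - m / 2) (hz : z.re = - n / 2)
    (hm : 1 ≤ m) (hn : 1 ≤ n) (h : 3 ≤ m + n) :
    1 + y + z ≠ 0 ∧ (y * z / (1 + y + z)).re < - 1 / 2 := by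
  have hu : 1 + y + z ≠ 0 := by
    intro heq
    have h1 : (1 + y + z).re = 0 := by rw [heq, Complex.zero_re]
    rw [Complex.add_re, Complex.add_re, Complex.one_re, hy, hz] at h1
    have h2 : (3 : ℝ) ≤ m + n := by exact_mod_cast h
    linarith
  refine ⟨hu, ?_⟩
  have h1 := P5_two m n y z hy hz hm hn h
  rw [← Complex.normSq_mul, ← Complex.normSq_mul] at h1
  have h2 : (1 + y) * (1 + z) = (1 + y + z) + y * z := by ring
  rw [h2, Complex.normSq_add] at h1
  have hpos : 0 < Complex.normSq (1 + y + z) := Complex.normSq_pos.mpr hu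
  have h3 : ((1 + y + z) * (starRingEnd ℂ) (y * z)).re =
      (y * z).re * (1 + y + z).re + (y * z).im * (1 + y + z).im := by
    rw [Complex.mul_re, Complex.conj_re, Complex.conj_im]
    ring
  rw [h3] at h1
  rw [Complex.div_re, ← add_div, div_lt_iff₀ hpos]
  linarith

/-- three points, pairwise sums zero or at least three -/
private theorem P5_three (k m n : ℕ) (x y z : ℂ) (hx : x.re = - k / 2) (hy : y.re = - m / 2)
    (hz : z.re = - n / 2) (x0 : k = 0 → x = 0) (y0 : m = 0 → y = 0) (z0 : n = 0 → z = 0)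
    (h1 : Z3 (k + m)) (h2 : Z3 (k + n)) (h3 : Z3 (m + n)) :
    (1 + x) * (1 + y + z) + y * z ≠ 0 := by
  have key : (1 + x) * (1 + y + z) + y * z = (1 + x) * ((1 + y) * (1 + z)) - x * (y * z) := by ring
  rcases Nat.eq_zero_or_pos k with hk | hk
  · have e1 : 1 + y ≠ 0 := P5_one m y hy y0 (by simpa [hk] using h1)
    have e2 : 1 + z ≠ 0 := P5_one n z hz z0 (by simpa [hk] using h2)
    rw [key, x0 hk]
    simp [e1, e2]
  rcases Nat.eq_zero_or_pos m with hm | hm
  · have e1 : 1 + x ≠ 0 := P5_one k x hx x0 (by simpa [hm] using h1)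
    have e2 : 1 + z ≠ 0 := P5_one n z hz z0 (by simpa [hm] using h3)
    rw [key, y0 hm]
    simp [e1, e2]
  rcases Nat.eq_zero_or_pos n with hn | hn
  · have e1 : 1 + x ≠ 0 := P5_one k x hx x0 (by simpa [hn] using h2)
    have e2 : 1 + y ≠ 0 := P5_one m y hy y0 (by simpa [hn] using h3)
    rw [key, z0 hn]
    simp [e1, e2]
  have g3 : 3 ≤ m + n := by
    rcases h3 with h | h
    · omega
    · exact h
  have a1 := P5_two m n y z hy hz hm hn g3
  have a2 := P5_le k x hx hk
  have a3 := P5_pos k x hx hk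
  have a4 : 0 < Complex.normSq y * Complex.normSq z :=
    mul_pos (P5_pos m y hy hm) (P5_pos n z hz hn)
  have a5 := P5_mul a2 a1.le (Complex.normSq_nonneg _)
    (mul_nonneg (Complex.normSq_nonneg _) (Complex.normSq_nonneg _)) a4 a3 (Or.inr a1)
  rw [← Complex.normSq_mul, ← Complex.normSq_mul, ← Complex.normSq_mul, ← Complex.normSq_mul] at a5
  intro h0
  rw [key, sub_eq_zero] at h0
  rw [h0] at a5
  exact lt_irrefl _ a5

theorem thm_P5 : St_P5 := by
  intro m3 m4 m5 m6 m7 c d e f g hc hd he hf hg c0 d0 e0 f0 g0 z1 z2 z3 z4 z5 z6 z7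
  rcases Nat.eq_zero_or_pos m4 with h4 | h4
  · have r1 : 1 + g ≠ 0 := P5_one m7 g hg g0 (by simpa [h4] using z6)
    have r2 := P5_three m3 m5 m6 c e f hc he hf c0 e0 f0 (by simpa [h4] using z4)
      (by simpa [h4] using z5) z7
    have r3 : F7 0 0 c d e f g = (1 + g) * ((1 + c) * (1 + e + f) + e * f) := by
      rw [d0 h4]
      unfold F7
      ring
    rw [r3]
    exact mul_ne_zero r1 r2
  rcases Nat.eq_zero_or_pos m7 with h7 | h7
  · have r1 : 1 + d ≠ 0 := P5_one m4 d hd d0 (by simpa [h7] using z6)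
    have r2 := P5_three m3 m5 m6 c e f hc he hf c0 e0 f0 (by simpa [h7] using z3)
      (by simpa [h7] using z2) z7
    have r3 : F7 0 0 c d e f g = (1 + d) * ((1 + c) * (1 + e + f) + e * f) := by
      rw [g0 h7]
      unfold F7
      ring
    rw [r3]
    exact mul_ne_zero r1 r2
  rcases Nat.eq_zero_or_pos m5 with h5 | h5
  · have r1 : 1 + f ≠ 0 := P5_one m6 f hf f0 (by simpa [h5] using z7)
    have r2 := P5_three m3 m4 m7 c d g hc hd hg c0 d0 g0 (by simpa [h5] using z4)
      (by simpa [h5] using z3) z6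
    have r3 : F7 0 0 c d e f g = (1 + f) * ((1 + c) * (1 + d + g) + d * g) := by
      rw [e0 h5]
      unfold F7
      ring
    rw [r3]
    exact mul_ne_zero r1 r2
  rcases Nat.eq_zero_or_pos m6 with h6 | h6
  · have r1 : 1 + e ≠ 0 := P5_one m5 e he e0 (by simpa [h6] using z7)
    have r2 := P5_three m3 m4 m7 c d g hc hd hg c0 d0 g0 (by simpa [h6] using z5)
      (by simpa [h6] using z2) z6
    have r3 : F7 0 0 c d e f g = (1 + e) * ((1 + c) * (1 + d + g) + d * g) := by
      rw [f0 h6]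
      unfold F7
      ring
    rw [r3]
    exact mul_ne_zero r1 r2
  have g6 : 3 ≤ m4 + m7 := by
    rcases z6 with h | h
    · omega
    · exact h
  have g7 : 3 ≤ m5 + m6 := by
    rcases z7 with h | h
    · omega
    · exact h
  obtain ⟨hu, qu⟩ := P5_quot m4 m7 d g hd hg h4 h7 g6
  obtain ⟨hv, qv⟩ := P5_quot m5 m6 e f he hf h5 h6 g7
  have r3 : F7 0 0 c d e f g =
      ((1 + d + g) * (1 + e + f)) * (1 + c + d * g / (1 + d + g) + e * f / (1 + e + f)) := by
    have h8 : ((1 + d + g) * (1 + e + f)) *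
        (1 + c + d * g / (1 + d + g) + e * f / (1 + e + f)) =
        (1 + d + g) * (1 + e + f) * (1 + c) + (1 + e + f) * (d * g) + (1 + d + g) * (e * f) := by
      field_simp
    rw [h8]
    unfold F7
    ring
  rw [r3]
  refine mul_ne_zero (mul_ne_zero hu hv) ?_
  intro h0
  have h9 : (1 + c + d * g / (1 + d + g) + e * f / (1 + e + f)).re = 0 := by
    rw [h0, Complex.zero_re]
  rw [Complex.add_re, Complex.add_re, Complex.add_re, Complex.one_re, hc] at h9
  have h10 : (0 : ℝ) ≤ m3 := Nat.cast_nonneg _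
  linarith

end Pool.Agent.C8
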