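import Pool.Agent.C8.St

/-!
# C8, module W: the Wheatstone lemma
-/

set_option autoImplicit false

namespace Pool.Agent.C8

open ComplexConjugate

private lemma Wheat_const (a b c d : ℝ) :
    0 < 2*a*b*c*d + 2*a*b*c^2 + 2*a*b*d^2 + 2*a^2*c*d + a^2*c^2 + 2*a^2*d^2 + 2*b^2*c*d +
      2*b^2*c^2 + b^2*d^2 + 2*a*b - 2*a*d + 2*a^2 - 2*b*c + 2*b^2 + 2*c*d + 2*c^2 + 2*d^2 + 4 := by
  by_contra hcon
  rw [not_lt] at hcon
  have h : 4 * (2*a*b*c*d + 2*a*b*c^2 + 2*a*b*d^2 + 2*a^2*c*d + a^2*c^2 + 2*a^2*d^2 + 2*b^2*c*d +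
      2*b^2*c^2 + b^2*d^2 + 2*a*b - 2*a*d + 2*a^2 - 2*b*c + 2*b^2 + 2*c*d + 2*c^2 + 2*d^2 + 4) =
      (4 + (((a - c) + (b - d))^2 - ((a + c) + (b + d))^2) / 2)^2 +
        ((a + c) * (b - d) - (b + d) * (a - c))^2 +
        (4 * (a + c)^2 + 4 * (b + d)^2 + 4 * ((a + c) + (b + d))^2) := by
    ring
  have h1 := sq_nonneg (4 + (((a - c) + (b - d))^2 - ((a + c) + (b + d))^2) / 2)
  have h2 := sq_nonneg ((a + c) * (b - d) - (b + d) * (a - c))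
  have h3 := sq_nonneg (a + c)
  have h4 := sq_nonneg (b + d)
  have h5 := sq_nonneg ((a + c) + (b + d))
  have h6 : (a + c)^2 = 0 := by linarith
  have h7 : (b + d)^2 = 0 := by linarith
  have h8 : a + c = 0 := pow_eq_zero_iff (two_ne_zero) |>.mp h6
  have h9 : b + d = 0 := pow_eq_zero_iff (two_ne_zero) |>.mp h7
  have h10 : (4 + (((a - c) + (b - d))^2 - ((a + c) + (b + d))^2) / 2)^2 = 0 := by linarith
  rw [h8, h9] at h10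
  have h11 := pow_eq_zero_iff (two_ne_zero) |>.mp h10
  have h12 := sq_nonneg ((a - c) + (b - d))
  linarith

private lemma Wheat_pos (X Y Z W : ℂ) (hX : 0 ≤ X.re) (hY : 0 ≤ Y.re) (hZ : 0 ≤ Z.re)
    (hW : 0 ≤ W.re) :
    0 < ((1 + (1 + X + Y) * (1 + Z + W) + (X + Z) + (Y + W) + (X + Z) * (Y + W) +
      X * Z * (Y + W) + Y * W * (X + Z)) * conj (1 + (1 + X + Y) * (1 + Z + W))).re := by
  obtain ⟨p, a⟩ := X
  obtain ⟨q, b⟩ := Y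
  obtain ⟨r, c⟩ := Z
  obtain ⟨s, d⟩ := W
  simp only at hX hY hZ hW
  have h0 := Wheat_const a b c d
  have key : ((1 + (1 + (⟨p, a⟩ : ℂ) + ⟨q, b⟩) * (1 + ⟨r, c⟩ + ⟨s, d⟩) + (⟨p, a⟩ + ⟨r, c⟩) +
      (⟨q, b⟩ + ⟨s, d⟩) + (⟨p, a⟩ + ⟨r, c⟩) * (⟨q, b⟩ + ⟨s, d⟩) +
      ⟨p, a⟩ * ⟨r, c⟩ * (⟨q, b⟩ + ⟨s, d⟩) + ⟨q, b⟩ * ⟨s, d⟩ * (⟨p, a⟩ + ⟨r, c⟩)) *
        conj (1 + (1 + (⟨p, a⟩ : ℂ) + ⟨q, b⟩) * (1 + ⟨r, c⟩ + ⟨s, d⟩))).re =
      (2*a*b*c*d + 2*a*b*c^2 + 2*a*b*d^2 + 2*a^2*c*d + a^2*c^2 + 2*a^2*d^2 + 2*b^2*c*d +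
      2*b^2*c^2 + b^2*d^2 + 2*a*b - 2*a*d + 2*a^2 - 2*b*c + 2*b^2 + 2*c*d + 2*c^2 + 2*d^2 + 4) +
      (p * (b^2*(c+d)^2 + (b-c)^2 + 2*(c+d)^2 + 2*d^2 + 6) +
      q * (a^2*(c+d)^2 + (a-d)^2 + 2*(c+d)^2 + 2*c^2 + 6) +
      r * (d^2*(a+b)^2 + (a-d)^2 + 2*(a+b)^2 + 2*b^2 + 6) +
      s * (c^2*(a+b)^2 + (b-c)^2 + 2*(a+b)^2 + 2*a^2 + 6) +
      p * q * (3*(c+d)^2 + c^2 + d^2 + 6) +
      p * r * ((b+d)^2 + b^2 + d^2 + 8) +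
      p * s * ((b-c)^2 + b^2 + c^2 + 10) +
      p^2 * ((c+d)^2 + d^2 + 2) +
      q * r * ((a-d)^2 + a^2 + d^2 + 10) +
      q * s * ((a+c)^2 + a^2 + c^2 + 8) +
      q^2 * ((c+d)^2 + c^2 + 2) +
      r * s * (3*(a+b)^2 + a^2 + b^2 + 6) +
      r^2 * ((a+b)^2 + b^2 + 2) +
      s^2 * ((a+b)^2 + a^2 + 2) +
      p * q * r * (2*d^2 + 10) +
      p * q * s * (2*c^2 + 10) +
      p * q^2 * ((c+d)^2 + 1) +
      p * r * s * (2*b^2 + 10) +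
      p * r^2 * (b^2 + 3) +
      p * s^2 * (b^2 + 4) +
      p^2 * q * ((c+d)^2 + 1) +
      p^2 * r * (d^2 + 3) +
      p^2 * s * (c^2 + 4) +
      q * r * s * (2*a^2 + 10) +
      q * r^2 * (a^2 + 4) +
      q * s^2 * (a^2 + 3) +
      q^2 * r * (d^2 + 4) +
      q^2 * s * (c^2 + 3) +
      r * s^2 * ((a+b)^2 + 1) +
      r^2 * s * ((a+b)^2 + 1) +
      (10*p*q*r*s + 4*p*q*r^2 + 4*p*q*s^2 + 2*p*q^2*r + 2*p*q^2*s + 2*p*r*s^2 + 2*p*r^2*s +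
        2*p^2*q*r + 2*p^2*q*s + 4*p^2*r*s + p^2*r^2 + 2*p^2*s^2 + 2*q*r*s^2 + 2*q*r^2*s +
        4*q^2*r*s + 2*q^2*r^2 + q^2*s^2) +
      (2*p*q*r*s^2 + 2*p*q*r^2*s + 2*p*q^2*r*s + p*q^2*r^2 + p*q^2*s^2 + 2*p^2*q*r*s +
        p^2*q*r^2 + p^2*q*s^2 + p^2*r*s^2 + p^2*r^2*s + q^2*r*s^2 + q^2*r^2*s)) := by
    simp only [Complex.add_re, Complex.mul_re, Complex.one_re, Complex.add_im, Complex.mul_im,
      Complex.one_im, Complex.conj_re, Complex.conj_im]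
    ring
  rw [key]
  have h1 : 0 ≤ (p * (b^2*(c+d)^2 + (b-c)^2 + 2*(c+d)^2 + 2*d^2 + 6) +
      q * (a^2*(c+d)^2 + (a-d)^2 + 2*(c+d)^2 + 2*c^2 + 6) +
      r * (d^2*(a+b)^2 + (a-d)^2 + 2*(a+b)^2 + 2*b^2 + 6) +
      s * (c^2*(a+b)^2 + (b-c)^2 + 2*(a+b)^2 + 2*a^2 + 6) +
      p * q * (3*(c+d)^2 + c^2 + d^2 + 6) +
      p * r * ((b+d)^2 + b^2 + d^2 + 8) +
      p * s * ((b-c)^2 + b^2 + c^2 + 10) +
      p^2 * ((c+d)^2 + d^2 + 2) +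
      q * r * ((a-d)^2 + a^2 + d^2 + 10) +
      q * s * ((a+c)^2 + a^2 + c^2 + 8) +
      q^2 * ((c+d)^2 + c^2 + 2) +
      r * s * (3*(a+b)^2 + a^2 + b^2 + 6) +
      r^2 * ((a+b)^2 + b^2 + 2) +
      s^2 * ((a+b)^2 + a^2 + 2) +
      p * q * r * (2*d^2 + 10) +
      p * q * s * (2*c^2 + 10) +
      p * q^2 * ((c+d)^2 + 1) +
      p * r * s * (2*b^2 + 10) +
      p * r^2 * (b^2 + 3) +
      p * s^2 * (b^2 + 4) +
      p^2 * q * ((c+d)^2 + 1) +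
      p^2 * r * (d^2 + 3) +
      p^2 * s * (c^2 + 4) +
      q * r * s * (2*a^2 + 10) +
      q * r^2 * (a^2 + 4) +
      q * s^2 * (a^2 + 3) +
      q^2 * r * (d^2 + 4) +
      q^2 * s * (c^2 + 3) +
      r * s^2 * ((a+b)^2 + 1) +
      r^2 * s * ((a+b)^2 + 1) +
      (10*p*q*r*s + 4*p*q*r^2 + 4*p*q*s^2 + 2*p*q^2*r + 2*p*q^2*s + 2*p*r*s^2 + 2*p*r^2*s +
        2*p^2*q*r + 2*p^2*q*s + 4*p^2*r*s + p^2*r^2 + 2*p^2*s^2 + 2*q*r*s^2 + 2*q*r^2*s +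
        4*q^2*r*s + 2*q^2*r^2 + q^2*s^2) +
      (2*p*q*r*s^2 + 2*p*q*r^2*s + 2*p*q^2*r*s + p*q^2*r^2 + p*q^2*s^2 + 2*p^2*q*r*s +
        p^2*q*r^2 + p^2*q*s^2 + p^2*r*s^2 + p^2*r^2*s + q^2*r*s^2 + q^2*r^2*s)) := by
    positivity
  linarith

private lemma Wheat_pos1 (Y Z W : ℂ) (hY : 0 ≤ Y.re) (hZ : 0 ≤ Z.re) (hW : 0 ≤ W.re) :
    0 < ((2 + Z + Y + 2 * W + Z * Y + Z * W + Y * W) * conj (1 + Z + W)).re := by
  obtain ⟨q, b⟩ := Y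
  obtain ⟨r, c⟩ := Z
  obtain ⟨s, d⟩ := W
  simp only at hY hZ hW
  have key : ((2 + (⟨r, c⟩ : ℂ) + ⟨q, b⟩ + 2 * ⟨s, d⟩ + ⟨r, c⟩ * ⟨q, b⟩ + ⟨r, c⟩ * ⟨s, d⟩ +
      ⟨q, b⟩ * ⟨s, d⟩) * conj (1 + (⟨r, c⟩ : ℂ) + ⟨s, d⟩)).re =
      2 + ((c+d)^2 + d^2 + q * ((c+d)^2 + 1) + r * (d^2 + 3) + s * (c^2 + 4) +
        (2*q*r + 2*q*s + 4*r*s + r^2 + 2*s^2 + 2*q*r*s + q*r^2 + q*s^2 + r*s^2 + r^2*s)) := by
    simp only [Complex.add_re, Complex.mul_re, Complex.one_re, Complex.add_im, Complex.mul_im,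
      Complex.one_im, Complex.conj_re, Complex.conj_im, Complex.re_ofNat, Complex.im_ofNat]
    ring
  rw [key]
  positivity

private lemma Wheat_key (N U t : ℂ) (h : 0 < (N * conj U).re) (ht : ‖t‖ ≤ 1) :
    (N + U) - t * (N - U) ≠ 0 := by
  intro h0
  have h1 : N + U = t * (N - U) := sub_eq_zero.mp h0
  have h2 : ‖N + U‖ ≤ ‖N - U‖ := by
    rw [h1, norm_mul]
    calc ‖t‖ * ‖N - U‖ ≤ 1 * ‖N - U‖ := mul_le_mul_of_nonneg_right ht (norm_nonneg _)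
      _ = ‖N - U‖ := one_mul _
  have h3 : Complex.normSq (N + U) ≤ Complex.normSq (N - U) := by
    rw [Complex.normSq_eq_norm_sq, Complex.normSq_eq_norm_sq]
    exact pow_le_pow_left₀ (norm_nonneg _) h2 2
  rw [Complex.normSq_add, Complex.normSq_sub] at h3
  linarith

private lemma Wheat_cay (x : ℂ) (hx : ‖x‖ ≤ 1) (h1 : x ≠ 1) :
    ∃ X : ℂ, 0 ≤ X.re ∧ X + 1 ≠ 0 ∧ x = (X - 1) / (X + 1) := by
  have h2 : (1 : ℂ) - x ≠ 0 := sub_ne_zero.mpr (Ne.symm h1)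
  have h3 : (1 + x) / (1 - x) + 1 = 2 / (1 - x) := by
    field_simp
    ring
  refine ⟨(1 + x) / (1 - x), ?_, ?_, ?_⟩
  · rw [Complex.div_re]
    have h4 : x.re ^ 2 + x.im ^ 2 ≤ 1 := by
      have h5 : Complex.normSq x ≤ 1 := by
        rw [Complex.normSq_eq_norm_sq]
        exact pow_le_one₀ (norm_nonneg _) hx
      rw [Complex.normSq_apply] at h5
      nlinarith
    have h6 : 0 < Complex.normSq (1 - x) := Complex.normSq_pos.mpr h2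
    rw [← add_div]
    apply div_nonneg _ h6.le
    simp only [Complex.add_re, Complex.one_re, Complex.sub_re, Complex.add_im, Complex.one_im,
      Complex.sub_im]
    nlinarith
  · rw [h3]
    exact div_ne_zero two_ne_zero h2
  · rw [h3]
    field_simp
    ring

/-- the polynomial -/
private noncomputable def Wheat_E (x y z w t : ℂ) : ℂ :=
  8 - 2 * (x + y + z + w) - (x - z) * (y - w) - t * (3 - x * z - y * w - x * y * z * w)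

private lemma Wheat_s1 (x y z w t : ℂ) : Wheat_E x y z w t = Wheat_E z w x y t := by
  unfold Wheat_E; ring

private lemma Wheat_s2 (x y z w t : ℂ) : Wheat_E x y z w t = Wheat_E y x w z t := by
  unfold Wheat_E; ring

private lemma Wheat_full (x y z w t : ℂ) (hx : ‖x‖ ≤ 1) (hy : ‖y‖ ≤ 1) (hz : ‖z‖ ≤ 1)
    (hw : ‖w‖ ≤ 1) (ht : ‖t‖ ≤ 1) (hx1 : x ≠ 1) (hy1 : y ≠ 1) (hz1 : z ≠ 1) (hw1 : w ≠ 1) :
    Wheat_E x y z w t ≠ 0 := by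
  obtain ⟨X, hX, hX1, rfl⟩ := Wheat_cay x hx hx1
  obtain ⟨Y, hY, hY1, rfl⟩ := Wheat_cay y hy hy1
  obtain ⟨Z, hZ, hZ1, rfl⟩ := Wheat_cay z hz hz1
  obtain ⟨W, hW, hW1, rfl⟩ := Wheat_cay w hw hw1
  have h := Wheat_key _ _ t (Wheat_pos X Y Z W hX hY hZ hW) ht
  intro h0
  apply h
  have e : Wheat_E ((X - 1) / (X + 1)) ((Y - 1) / (Y + 1)) ((Z - 1) / (Z + 1))
      ((W - 1) / (W + 1)) t * ((X + 1) * (Y + 1) * (Z + 1) * (W + 1)) =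
      4 * (((1 + (1 + X + Y) * (1 + Z + W) + (X + Z) + (Y + W) + (X + Z) * (Y + W) +
      X * Z * (Y + W) + Y * W * (X + Z)) + (1 + (1 + X + Y) * (1 + Z + W))) -
      t * ((1 + (1 + X + Y) * (1 + Z + W) + (X + Z) + (Y + W) + (X + Z) * (Y + W) +
      X * Z * (Y + W) + Y * W * (X + Z)) - (1 + (1 + X + Y) * (1 + Z + W)))) := by
    unfold Wheat_E
    field_simp
    ring
  rw [h0, zero_mul] at e
  have h4 : (4 : ℂ) ≠ 0 := by norm_num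
  exact (mul_eq_zero.mp e.symm).resolve_left h4

private lemma Wheat_one (y z w t : ℂ) (hy : ‖y‖ ≤ 1) (hz : ‖z‖ ≤ 1)
    (hw : ‖w‖ ≤ 1) (ht : ‖t‖ ≤ 1) (hy1 : y ≠ 1) (hz1 : z ≠ 1) (hw1 : w ≠ 1) :
    Wheat_E 1 y z w t ≠ 0 := by
  obtain ⟨Y, hY, hY1, rfl⟩ := Wheat_cay y hy hy1
  obtain ⟨Z, hZ, hZ1, rfl⟩ := Wheat_cay z hz hz1
  obtain ⟨W, hW, hW1, rfl⟩ := Wheat_cay w hw hw1
  have h := Wheat_key _ _ t (Wheat_pos1 Y Z W hY hZ hW) ht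
  intro h0
  apply h
  have e : Wheat_E 1 ((Y - 1) / (Y + 1)) ((Z - 1) / (Z + 1))
      ((W - 1) / (W + 1)) t * ((Y + 1) * (Z + 1) * (W + 1)) =
      4 * (((2 + Z + Y + 2 * W + Z * Y + Z * W + Y * W) + (1 + Z + W)) -
      t * ((2 + Z + Y + 2 * W + Z * Y + Z * W + Y * W) - (1 + Z + W))) := by
    unfold Wheat_E
    field_simp
    ring
  rw [h0, zero_mul] at e
  have h4 : (4 : ℂ) ≠ 0 := by norm_num
  exact (mul_eq_zero.mp e.symm).resolve_left h4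

private lemma Wheat_xz (y w t : ℂ) (hy : ‖y‖ ≤ 1) (hw : ‖w‖ ≤ 1) (ht : ‖t‖ ≤ 1) (hy1 : y ≠ 1)
    (hw1 : w ≠ 1) : Wheat_E 1 y 1 w t ≠ 0 := by
  obtain ⟨Y, hY, hY1, rfl⟩ := Wheat_cay y hy hy1
  obtain ⟨W, hW, hW1, rfl⟩ := Wheat_cay w hw hw1
  have h := Wheat_key (Y + W + 1) 1 t (by
    simp only [map_one, mul_one, Complex.add_re, Complex.one_re]; linarith) ht
  intro h0
  apply h
  have e : Wheat_E 1 ((Y - 1) / (Y + 1)) 1 ((W - 1) / (W + 1)) t * ((Y + 1) * (W + 1)) =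
      4 * ((Y + W + 1 + 1) - t * (Y + W + 1 - 1)) := by
    unfold Wheat_E
    field_simp
    ring
  rw [h0, zero_mul] at e
  have h4 : (4 : ℂ) ≠ 0 := by norm_num
  exact (mul_eq_zero.mp e.symm).resolve_left h4

private lemma Wheat_xw (y z t : ℂ) (hy : ‖y‖ ≤ 1) (hz : ‖z‖ ≤ 1) (ht : ‖t‖ ≤ 1) (hy1 : y ≠ 1)
    (hz1 : z ≠ 1) : Wheat_E 1 y z 1 t ≠ 0 := by
  obtain ⟨Y, hY, hY1, rfl⟩ := Wheat_cay y hy hy1
  obtain ⟨Z, hZ, hZ1, rfl⟩ := Wheat_cay z hz hz1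
  have h := Wheat_key (Y + Z + 2) 1 t (by
    simp only [map_one, mul_one, Complex.add_re, Complex.re_ofNat]; linarith) ht
  intro h0
  apply h
  have e : Wheat_E 1 ((Y - 1) / (Y + 1)) ((Z - 1) / (Z + 1)) 1 t * ((Y + 1) * (Z + 1)) =
      4 * ((Y + Z + 2 + 1) - t * (Y + Z + 2 - 1)) := by
    unfold Wheat_E
    field_simp
    ring
  rw [h0, zero_mul] at e
  have h4 : (4 : ℂ) ≠ 0 := by norm_num
  exact (mul_eq_zero.mp e.symm).resolve_left h4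

private lemma Wheat_xy (z w t : ℂ) (hz : ‖z‖ ≤ 1) (hw : ‖w‖ ≤ 1) (hz1 : z ≠ 1) (ht1 : t ≠ 1) :
    Wheat_E 1 1 z w t ≠ 0 := by
  have e : Wheat_E 1 1 z w t = (1 - t) * (3 - z - w - z * w) := by
    unfold Wheat_E; ring
  rw [e]
  refine mul_ne_zero (sub_ne_zero.mpr (Ne.symm ht1)) ?_
  intro h0
  apply hz1
  have h1 : z + w + z * w = 3 := by linear_combination -h0
  have h2 : z.re + w.re + (z * w).re = 3 := by
    have := congrArg Complex.re h1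
    simpa using this
  have h3 : w.re ≤ 1 := (Complex.re_le_norm w).trans hw
  have h4 : (z * w).re ≤ 1 := by
    refine (Complex.re_le_norm _).trans ?_
    rw [norm_mul]
    exact mul_le_one₀ hz (norm_nonneg _) hw
  have h5 : z.re ≤ 1 := (Complex.re_le_norm z).trans hz
  have h6 : z.re = 1 := by linarith
  have h7 : z.re ^ 2 + z.im ^ 2 ≤ 1 := by
    have h8 : Complex.normSq z ≤ 1 := by
      rw [Complex.normSq_eq_norm_sq]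
      exact pow_le_one₀ (norm_nonneg _) hz
    rw [Complex.normSq_apply] at h8
    nlinarith
  have h8 : z.im = 0 := by
    rw [h6] at h7
    have : z.im ^ 2 ≤ 0 := by linarith
    exact pow_eq_zero_iff (two_ne_zero) |>.mp (le_antisymm this (sq_nonneg _))
  exact Complex.ext (by simpa using h6) (by simpa using h8)

theorem thm_Wheat : St_Wheat := by
  intro x y z w t hx hy hz hw ht hcount
  show Wheat_E x y z w t ≠ 0
  by_cases hx1 : x = 1 <;> by_cases hy1 : y = 1 <;> by_cases hz1 : z = 1 <;>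
    by_cases hw1 : w = 1
  · simp [hx1, hy1, hz1, hw1] at hcount
  · simp [hx1, hy1, hz1, hw1] at hcount
  · simp [hx1, hy1, hz1, hw1] at hcount
  · have ht1 : t ≠ 1 := by
      intro ht1
      simp [hx1, hy1, hz1, hw1, ht1] at hcount
    subst hx1; subst hy1
    exact Wheat_xy z w t hz hw hz1 ht1
  · simp [hx1, hy1, hz1, hw1] at hcount
  · subst hx1; subst hz1
    exact Wheat_xz y w t hy hw ht hy1 hw1
  · subst hx1; subst hw1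
    exact Wheat_xw y z t hy hz ht hy1 hz1
  · subst hx1
    exact Wheat_one y z w t hy hz hw ht hy1 hz1 hw1
  · simp [hx1, hy1, hz1, hw1] at hcount
  · subst hy1; subst hz1
    rw [Wheat_s2]
    exact Wheat_xw x w t hx hw ht hx1 hw1
  · subst hy1; subst hw1
    rw [Wheat_s2]
    exact Wheat_xz x z t hx hz ht hx1 hz1
  · subst hy1
    rw [Wheat_s2]
    exact Wheat_one x w z t hx hw hz ht hx1 hw1 hz1
  · have ht1 : t ≠ 1 := by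
      intro ht1
      simp [hx1, hy1, hz1, hw1, ht1] at hcount
    subst hz1; subst hw1
    rw [Wheat_s1]
    exact Wheat_xy x y t hx hy hx1 ht1
  · subst hz1
    rw [Wheat_s1]
    exact Wheat_one w x y t hw hx hy ht hw1 hx1 hy1
  · subst hw1
    rw [Wheat_s1, Wheat_s2]
    exact Wheat_one z y x t hz hy hx ht hz1 hy1 hx1
  · exact Wheat_full x y z w t hx hy hz hw ht hx1 hy1 hz1 hw1

end Pool.Agent.C8
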