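import Mathlib
import Pool.Agent.C8.St
import Pool.Agent.C8.Dual
import Pool.Agent.C8.Form
import Pool.Agent.C8.P5
import Pool.Agent.C8.Near
import Pool.Agent.C8.Wheat
import Pool.Agent.C8.K4
import Pool.Agent.C8.F7
import Pool.Agent.SPT.R4

/-!
# C8: assembly
-/

set_option autoImplicit false
set_option linter.unusedSectionVars false

open Submodule

namespace Pool.Agent.C8

open Pool.Agent.SPT (PP Spans NonV NonVs)

/-- the numbering as an equivalence -/
def Main_e : Fin 8 ≃ G := ⟨Form_pt, Form_no, Form_no_pt, Form_pt_no⟩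

theorem Main_sum {M : Type} [AddCommMonoid M] (f : G → M) :
    ∑ y : G, f y = f ![0, 0, 0] + f ![1, 0, 0] + f ![0, 1, 0] + f ![1, 1, 0] + f ![0, 0, 1] +
      f ![1, 0, 1] + f ![0, 1, 1] + f ![1, 1, 1] := by
  have hp : Form_pt 0 = ![0, 0, 0] ∧ Form_pt 1 = ![1, 0, 0] ∧ Form_pt 2 = ![0, 1, 0] ∧
      Form_pt 3 = ![1, 1, 0] ∧ Form_pt 4 = ![0, 0, 1] ∧ Form_pt 5 = ![1, 0, 1] ∧
      Form_pt 6 = ![0, 1, 1] ∧ Form_pt 7 = ![1, 1, 1] := by
    decide
  obtain ⟨p0, p1, p2, p3, p4, p5, p6, p7⟩ := hp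
  rw [← Main_e.sum_comp, Fin.sum_univ_eight]
  show f (Form_pt 0) + f (Form_pt 1) + f (Form_pt 2) + f (Form_pt 3) + f (Form_pt 4) +
    f (Form_pt 5) + f (Form_pt 6) + f (Form_pt 7) = _
  rw [p0, p1, p2, p3, p4, p5, p6, p7]

section

variable {V : Type} [AddCommGroup V] [Module (ZMod 2) V] [DecidableEq V]

/-- the class of a point -/
def Main_cl (X : Finset V) (D : V → G) (y : G) : Finset V := X.filter fun v => D v = y

/-- the size of the class of a point -/
def Main_m (X : Finset V) (D : V → G) (y : G) : ℕ := (Main_cl X D y).card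

/-- the exponents of the class of a point -/
noncomputable def Main_L (X : Finset V) (D : V → G) (u : V → ℤ) (y : G) : List ℤ :=
  (Main_cl X D y).toList.map u

theorem Main_length (X : Finset V) (D : V → G) (u : V → ℤ) (y : G) :
    (Main_L X D u y).length = Main_m X D y := by
  unfold Main_L Main_m
  rw [List.length_map, Finset.length_toList]

theorem Main_mem (X : Finset V) (D : V → G) (u : V → ℤ) (y : G) (n : ℤ)
    (hn : n ∈ Main_L X D u y) : ∃ v ∈ X, D v = y ∧ u v = n := by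
  unfold Main_L Main_cl at hn
  obtain ⟨v, hv, hvn⟩ := List.mem_map.1 hn
  rw [Finset.mem_toList, Finset.mem_filter] at hv
  exact ⟨v, hv.1, hv.2, hvn⟩

theorem Main_cs (X : Finset V) (D : V → G) (u : V → ℤ) (y : G) (z : ℂ) :
    cs (Main_L X D u y) z = ∑ v ∈ X with D v = y, (z ^ u v - 1)⁻¹ := by
  unfold cs Main_L Main_cl
  rw [List.map_map, ← Finset.sum_map_toList]
  rfl

theorem Main_total (X : Finset V) (D : V → G) : ∑ y : G, Main_m X D y = X.card := by
  unfold Main_m Main_cl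
  exact (Finset.card_eq_sum_card_fiberwise fun v _ => Finset.mem_coe.2 (Finset.mem_univ (D v))).symm

theorem Main_fin (X : Finset V) (D : V → G) (hD : DualOf X D) (u : V → ℤ) (z : ℂ)
    (hz : ∀ v ∈ X, z ^ u v ≠ 1)
    (h : F7 (cs (Main_L X D u ![1, 0, 0]) z) (cs (Main_L X D u ![0, 1, 0]) z)
      (cs (Main_L X D u ![1, 1, 0]) z) (cs (Main_L X D u ![0, 0, 1]) z)
      (cs (Main_L X D u ![1, 0, 1]) z) (cs (Main_L X D u ![0, 1, 1]) z)
      (cs (Main_L X D u ![1, 1, 1]) z) ≠ 0) :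
    PP X ⊥ (fun v => z ^ u v) ≠ 0 := by
  rw [thm_Form V X D hD (fun v => z ^ u v) hz (fun y => cs (Main_L X D u y) z)
    fun y => Main_cs X D u y z]
  exact mul_ne_zero (Finset.prod_ne_zero_iff.2 fun v hv => sub_ne_zero.2 (hz v hv)) h

/-- a functional -/
def Main_phi (t : G) : G →ₗ[ZMod 2] ZMod 2 :=
  t 0 • LinearMap.proj 0 + t 1 • LinearMap.proj 1 + t 2 • LinearMap.proj 2

theorem Main_phi_apply (t y : G) : Main_phi t y = t 0 * y 0 + t 1 * y 1 + t 2 * y 2 := by
  simp [Main_phi]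

theorem Main_Z3 (X : Finset V) (D : V → G) (h0 : (0 : V) ∉ X) (hD : DualOf X D) (t : G) :
    Z3 (∑ y : G, if t 0 * y 0 + t 1 * y 1 + t 2 * y 2 ≠ 0 then Main_m X D y else 0) := by
  have h1 : ∑ y : G, (if t 0 * y 0 + t 1 * y 1 + t 2 * y 2 ≠ 0 then Main_m X D y else 0) =
      (X.filter fun v => Main_phi t (D v) ≠ 0).card := by
    rw [Finset.card_eq_sum_card_fiberwise (f := D) (t := Finset.univ)
      fun v _ => Finset.mem_coe.2 (Finset.mem_univ (D v))]
    refine Finset.sum_congr rfl fun y _ => ?_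
    rw [Finset.filter_filter]
    split_ifs with h
    · unfold Main_m Main_cl
      congr 1
      refine Finset.filter_congr fun v _ => ?_
      constructor
      · intro hv
        refine ⟨?_, hv⟩
        rw [Main_phi_apply, hv]
        exact h
      · exact fun hv => hv.2
    · symm
      rw [Finset.card_eq_zero, Finset.filter_eq_empty_iff]
      rintro v _ ⟨hv, rfl⟩
      rw [Main_phi_apply] at hv
      exact h hv
  rw [h1]
  by_cases h2 : ∃ v ∈ X, Main_phi t (D v) ≠ 0
  · exact Or.inr ((thm_Cos V X D h0 hD).1 _ h2)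
  · left
    rw [Finset.card_eq_zero, Finset.filter_eq_empty_iff]
    intro v hv hv'
    exact h2 ⟨v, hv, hv'⟩

theorem Main_Z3s (X : Finset V) (D : V → G) (h0 : (0 : V) ∉ X) (hD : DualOf X D)
    (h1 : Main_m X D ![1, 0, 0] = 0) (h2 : Main_m X D ![0, 1, 0] = 0) :
    Z3 (Main_m X D ![0, 0, 1] + Main_m X D ![1, 0, 1] + Main_m X D ![0, 1, 1] +
      Main_m X D ![1, 1, 1]) ∧
    Z3 (Main_m X D ![1, 1, 0] + Main_m X D ![0, 1, 1] + Main_m X D ![1, 1, 1]) ∧
    Z3 (Main_m X D ![1, 1, 0] + Main_m X D ![1, 0, 1] + Main_m X D ![1, 1, 1]) ∧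
    Z3 (Main_m X D ![1, 1, 0] + Main_m X D ![0, 0, 1] + Main_m X D ![1, 0, 1]) ∧
    Z3 (Main_m X D ![1, 1, 0] + Main_m X D ![0, 0, 1] + Main_m X D ![0, 1, 1]) ∧
    Z3 (Main_m X D ![0, 0, 1] + Main_m X D ![1, 1, 1]) ∧
    Z3 (Main_m X D ![1, 0, 1] + Main_m X D ![0, 1, 1]) := by
  have k : (1 : ZMod 2) + 1 = 0 := by decide
  have a1 := Main_Z3 X D h0 hD ![0, 0, 1]
  have a2 := Main_Z3 X D h0 hD ![0, 1, 0]
  have a3 := Main_Z3 X D h0 hD ![1, 0, 0]
  have a4 := Main_Z3 X D h0 hD ![0, 1, 1]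
  have a5 := Main_Z3 X D h0 hD ![1, 0, 1]
  have a6 := Main_Z3 X D h0 hD ![1, 1, 1]
  have a7 := Main_Z3 X D h0 hD ![1, 1, 0]
  rw [Main_sum] at a1 a2 a3 a4 a5 a6 a7
  simp [k, h1, h2] at a1 a2 a3 a4 a5 a6 a7
  exact ⟨a1, a2, a3, a4, a5, a6, a7⟩

theorem Main_re (x : ℂ) (h1 : ‖x‖ = 1) (h2 : x ≠ 1) : ((x - 1)⁻¹).re = - 1 / 2 := by
  have h3 : x.re * x.re + x.im * x.im = 1 := by
    have h4 := Complex.normSq_apply x
    rw [Complex.normSq_eq_norm_sq, h1] at h4
    linarith
  have h4 : (x - 1).re ≠ 0 := by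
    intro h5
    rw [Complex.sub_re, Complex.one_re, sub_eq_zero] at h5
    rw [h5] at h3
    have h6 : x.im = 0 := by
      have : x.im * x.im = 0 := by linarith
      exact mul_self_eq_zero.1 this
    exact h2 (Complex.ext h5 h6)
  rw [Complex.inv_re, Complex.normSq_apply]
  have h5 : (x - 1).re * (x - 1).re + (x - 1).im * (x - 1).im = - 2 * (x - 1).re := by
    simp only [Complex.sub_re, Complex.sub_im, Complex.one_re, Complex.one_im]
    linarith
  rw [h5]
  field_simp

theorem Main_cs_re (X : Finset V) (D : V → G) (u : V → ℤ) (y : G) (z : ℂ) (hz : ‖z‖ = 1)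
    (h : ∀ v ∈ X, z ^ u v ≠ 1) : (cs (Main_L X D u y) z).re = - (Main_m X D y : ℝ) / 2 := by
  rw [Main_cs, Complex.re_sum, Finset.sum_congr rfl fun v hv =>
    Main_re (z ^ u v) (by rw [norm_zpow, hz, one_zpow]) (h v (Finset.mem_filter.1 hv).1),
    Finset.sum_const, nsmul_eq_mul]
  unfold Main_m Main_cl
  ring

theorem Main_cs_zero (X : Finset V) (D : V → G) (u : V → ℤ) (y : G) (z : ℂ)
    (h : Main_m X D y = 0) : cs (Main_L X D u y) z = 0 := by
  rw [← Main_length X D u y, List.length_eq_zero_iff] at h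
  rw [h]
  rfl

theorem Main_A (X : Finset V) (D : V → G) (h0 : (0 : V) ∉ X) (hD : DualOf X D)
    (h1 : Main_m X D ![1, 0, 0] = 0) (h2 : Main_m X D ![0, 1, 0] = 0) (u : V → ℤ)
    (hu : ∀ v ∈ X, u v ≠ 0) : ∃ z : ℂ, ‖z‖ = 1 ∧ PP X ⊥ (fun v => z ^ u v) ≠ 0 := by
  obtain ⟨z, _, hz, _, hb⟩ := thm_Near 1 Set.univ (X.image u) norm_one isOpen_univ
    (Set.mem_univ _) (by
      intro b hb
      obtain ⟨v, hv, rfl⟩ := Finset.mem_image.1 hb
      exact hu v hv)
  have hzv : ∀ v ∈ X, z ^ u v ≠ 1 := fun v hv => hb _ (Finset.mem_image_of_mem u hv)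
  refine ⟨z, hz, Main_fin X D hD u z hzv ?_⟩
  rw [Main_cs_zero X D u _ z h1, Main_cs_zero X D u _ z h2]
  obtain ⟨a1, a2, a3, a4, a5, a6, a7⟩ := Main_Z3s X D h0 hD h1 h2
  exact thm_P5 _ _ _ _ _ _ _ _ _ _ (Main_cs_re X D u _ z hz hzv) (Main_cs_re X D u _ z hz hzv)
    (Main_cs_re X D u _ z hz hzv) (Main_cs_re X D u _ z hz hzv) (Main_cs_re X D u _ z hz hzv)
    (Main_cs_zero X D u _ z) (Main_cs_zero X D u _ z) (Main_cs_zero X D u _ z)
    (Main_cs_zero X D u _ z) (Main_cs_zero X D u _ z) a1 a2 a3 a4 a5 a6 a7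

theorem Main_B (X : Finset V) (D : V → G) (hD : DualOf X D) (hX : X.card ≤ 8)
    (h1 : Main_m X D ![1, 0, 0] = 0) (h2 : Main_m X D ![0, 1, 0] = 1)
    (h3 : Main_m X D ![1, 1, 0] ≠ 0) (h4 : Main_m X D ![0, 0, 1] ≠ 0)
    (h5 : Main_m X D ![1, 0, 1] ≠ 0) (h6 : Main_m X D ![0, 1, 1] ≠ 0)
    (h7 : Main_m X D ![1, 1, 1] ≠ 0) (u : V → ℤ) (hu : ∀ v ∈ X, u v ≠ 0) (r : ℤ)
    (hr : Main_L X D u ![0, 1, 0] = [r])
    (hv : ∀ y n, y ≠ 0 → Main_L X D u y = [n] → padicValInt 2 n ≤ padicValInt 2 r) :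
    ∃ z : ℂ, ‖z‖ = 1 ∧ PP X ⊥ (fun v => z ^ u v) ≠ 0 := by
  have hmem : ∀ y, ∀ n ∈ Main_L X D u y, n ∈ X.image u := by
    intro y n hn
    obtain ⟨v, hv, _, rfl⟩ := Main_mem X D u y n hn
    exact Finset.mem_image_of_mem u hv
  have hB : ∀ b ∈ X.image u, b ≠ 0 := by
    intro b hb
    obtain ⟨v, hv, rfl⟩ := Finset.mem_image.1 hb
    exact hu v hv
  have hrB : r ∈ X.image u := hmem ![0, 1, 0] r (by rw [hr]; exact List.mem_singleton_self r)
  have hne : ∀ y, Main_m X D y ≠ 0 → Main_L X D u y ≠ [] := by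
    intro y hy h
    rw [← Main_length X D u y, h] at hy
    exact hy rfl
  have hsum := Main_total X D
  rw [Main_sum] at hsum
  obtain ⟨z, hz, hb, hF⟩ := thm_K4 thm_Near thm_Wheat r
    ![Main_L X D u ![1, 1, 0], Main_L X D u ![0, 0, 1], Main_L X D u ![1, 0, 1],
      Main_L X D u ![0, 1, 1], Main_L X D u ![1, 1, 1]] (X.image u) (hB r hrB)
    (by
      intro j
      fin_cases j
      · exact hne _ h3
      · exact hne _ h4
      · exact hne _ h5
      · exact hne _ h6
      · exact hne _ h7)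
    (by
      intro j n hn
      fin_cases j
      · exact hB n (hmem _ n hn)
      · exact hB n (hmem _ n hn)
      · exact hB n (hmem _ n hn)
      · exact hB n (hmem _ n hn)
      · exact hB n (hmem _ n hn))
    (by
      rw [Finset.card_filter, Fin.sum_univ_five]
      simp only [Matrix.cons_val, Main_length]
      split_ifs <;> omega)
    (by
      intro j n hn
      fin_cases j
      · exact hv _ n (by decide) hn
      · exact hv _ n (by decide) hn
      · exact hv _ n (by decide) hn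
      · exact hv _ n (by decide) hn
      · exact hv _ n (by decide) hn)
    hB hrB
    (by
      intro j n hn
      fin_cases j
      · exact hmem _ n hn
      · exact hmem _ n hn
      · exact hmem _ n hn
      · exact hmem _ n hn
      · exact hmem _ n hn)
  refine ⟨z, hz, Main_fin X D hD u z (fun v hv => hb _ (Finset.mem_image_of_mem u hv)) ?_⟩
  rw [Main_cs_zero X D u _ z h1, hr]
  exact hF

theorem Main_C (X : Finset V) (D : V → G) (hD : DualOf X D)
    (h1 : Main_m X D ![1, 0, 0] ≠ 0) (h1' : Main_m X D ![1, 0, 0] ≤ 2)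
    (h2 : Main_m X D ![0, 1, 0] = 1)
    (h3 : Main_m X D ![1, 1, 0] = 1) (h4 : Main_m X D ![0, 0, 1] = 1)
    (h5 : Main_m X D ![1, 0, 1] = 1) (h6 : Main_m X D ![0, 1, 1] = 1)
    (h7 : Main_m X D ![1, 1, 1] = 1) (u : V → ℤ) (hu : ∀ v ∈ X, u v ≠ 0) :
    ∃ z : ℂ, ‖z‖ = 1 ∧ PP X ⊥ (fun v => z ^ u v) ≠ 0 := by
  have hmem : ∀ y, ∀ n ∈ Main_L X D u y, n ∈ X.image u := by
    intro y n hn
    obtain ⟨v, hv, _, rfl⟩ := Main_mem X D u y n hn
    exact Finset.mem_image_of_mem u hv
  have hB : ∀ b ∈ X.image u, b ≠ 0 := by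
    intro b hb
    obtain ⟨v, hv, rfl⟩ := Finset.mem_image.1 hb
    exact hu v hv
  have hone : ∀ y, Main_m X D y = 1 → ∃ n, Main_L X D u y = [n] := by
    intro y hy
    rw [← Main_length X D u y] at hy
    exact List.length_eq_one_iff.1 hy
  obtain ⟨n2, e2⟩ := hone _ h2
  obtain ⟨n3, e3⟩ := hone _ h3
  obtain ⟨n4, e4⟩ := hone _ h4
  obtain ⟨n5, e5⟩ := hone _ h5
  obtain ⟨n6, e6⟩ := hone _ h6
  obtain ⟨n7, e7⟩ := hone _ h7
  have b2 : n2 ∈ X.image u := hmem _ _ (by rw [e2]; exact List.mem_singleton_self _)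
  have b3 : n3 ∈ X.image u := hmem _ _ (by rw [e3]; exact List.mem_singleton_self _)
  have b4 : n4 ∈ X.image u := hmem _ _ (by rw [e4]; exact List.mem_singleton_self _)
  have b5 : n5 ∈ X.image u := hmem _ _ (by rw [e5]; exact List.mem_singleton_self _)
  have b6 : n6 ∈ X.image u := hmem _ _ (by rw [e6]; exact List.mem_singleton_self _)
  have b7 : n7 ∈ X.image u := hmem _ _ (by rw [e7]; exact List.mem_singleton_self _)
  have hj : ∀ j, ![n2, n3, n4, n5, n6, n7] j ∈ X.image u := by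
    intro j
    fin_cases j
    · exact b2
    · exact b3
    · exact b4
    · exact b5
    · exact b6
    · exact b7
  obtain ⟨z, hz, hb, hF⟩ := thm_F7 thm_Near (Main_L X D u ![1, 0, 0])
    ![n2, n3, n4, n5, n6, n7] (X.image u)
    (by
      intro h
      rw [← Main_length X D u, h] at h1
      exact h1 rfl)
    (by rw [Main_length]; exact h1') (fun n hn => hB n (hmem _ n hn)) (fun j => hB _ (hj j)) hB
    (fun n hn => hmem _ n hn) hj
  refine ⟨z, hz, Main_fin X D hD u z (fun v hv => hb _ (Finset.mem_image_of_mem u hv)) ?_⟩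
  rw [e2, e3, e4, e5, e6, e7]
  exact hF

theorem Main_move (X : Finset V) (D : V → G) (g : G ≃ₗ[ZMod 2] G) (y : G) :
    Main_m X (fun v => g (D v)) (g y) = Main_m X D y := by
  unfold Main_m Main_cl
  congr 1
  refine Finset.filter_congr fun v _ => ?_
  exact g.injective.eq_iff

theorem Main_move_L (X : Finset V) (D : V → G) (g : G ≃ₗ[ZMod 2] G) (u : V → ℤ) (y : G) :
    Main_L X (fun v => g (D v)) u (g y) = Main_L X D u y := by
  unfold Main_L Main_cl
  congr 2
  refine Finset.filter_congr fun v _ => ?_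
  exact g.injective.eq_iff

theorem Main_nz (X : Finset V) (h0 : (0 : V) ∉ X) (hX : X.card ≤ 8)
    (hc : X.card ≤ Module.finrank (ZMod 2) (span (ZMod 2) (X : Set V)) + 3) (u : V → ℤ)
    (hu : ∀ v ∈ X, u v ≠ 0) : ∃ z : ℂ, ‖z‖ = 1 ∧ PP X ⊥ (fun v => z ^ u v) ≠ 0 := by
  obtain ⟨D, hD⟩ := thm_Dual V X hc
  have hcos := thm_Cos V X D h0 hD
  have htot := Main_total X D
  obtain ⟨Z, hZ⟩ : ∃ Z : Finset G, Z = Finset.univ.filter fun y => y ≠ 0 ∧ Main_m X D y = 0 :=
    ⟨_, rfl⟩
  have hZm : ∀ y, y ∈ Z ↔ y ≠ 0 ∧ Main_m X D y = 0 := by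
    intro y
    rw [hZ, Finset.mem_filter]
    exact and_iff_right (Finset.mem_univ _)
  by_cases hZ2 : 1 < Z.card
  · -- at least two points are missing
    obtain ⟨a, ha, b, hb, hab⟩ := Finset.one_lt_card.1 hZ2
    obtain ⟨g, ga, gb⟩ := thm_Move a b ((hZm a).1 ha).1 ((hZm b).1 hb).1 hab
    refine Main_A X (fun v => g (D v)) h0 (hcos.2 g) ?_ ?_ u hu
    · rw [← ga, Main_move]
      exact ((hZm a).1 ha).2
    · rw [← gb, Main_move]
      exact ((hZm b).1 hb).2
  by_cases hZ1 : Z.card = 1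
  · -- one point is missing
    obtain ⟨a, ha⟩ := Finset.card_eq_one.1 hZ1
    have ha' := (hZm a).1 (by rw [ha]; exact Finset.mem_singleton_self a)
    have hpos : ∀ y, y ≠ 0 → y ≠ a → Main_m X D y ≠ 0 := by
      intro y hy hya hm
      have h1 := (hZm y).2 ⟨hy, hm⟩
      rw [ha, Finset.mem_singleton] at h1
      exact hya h1
    obtain ⟨S, hS⟩ : ∃ S : Finset G, S = Finset.univ.filter fun y => y ≠ 0 ∧ Main_m X D y = 1 :=
      ⟨_, rfl⟩
    have hSm : ∀ y, y ∈ S ↔ y ≠ 0 ∧ Main_m X D y = 1 := by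
      intro y
      rw [hS, Finset.mem_filter]
      exact and_iff_right (Finset.mem_univ _)
    have hSne : S.Nonempty := by
      by_contra hS0
      rw [Finset.not_nonempty_iff_eq_empty] at hS0
      have h1 : ∀ y ∈ (Finset.univ.erase (0 : G)).erase a, 2 ≤ Main_m X D y := by
        intro y hy
        rw [Finset.mem_erase, Finset.mem_erase] at hy
        have h2 := hpos y hy.2.1 hy.1
        have h3 : Main_m X D y ≠ 1 := by
          intro h4
          have h5 := (hSm y).2 ⟨hy.2.1, h4⟩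
          rw [hS0] at h5
          exact absurd h5 (Finset.notMem_empty _)
        omega
      have h2 : ((Finset.univ.erase (0 : G)).erase a).card • 2 ≤
          ∑ y ∈ (Finset.univ.erase (0 : G)).erase a, Main_m X D y :=
        Finset.card_nsmul_le_sum _ _ _ h1
      have h3 : ((Finset.univ.erase (0 : G)).erase a).card = 6 := by
        rw [Finset.card_erase_of_mem (Finset.mem_erase.2 ⟨ha'.1, Finset.mem_univ _⟩),
          Finset.card_erase_of_mem (Finset.mem_univ _)]
        rfl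
      have h4 : ∑ y ∈ (Finset.univ.erase (0 : G)).erase a, Main_m X D y ≤
          ∑ y : G, Main_m X D y :=
        Finset.sum_le_sum_of_subset (Finset.subset_univ _)
      rw [h3, smul_eq_mul] at h2
      omega
    obtain ⟨e, heS, hmax⟩ := Finset.exists_max_image S
      (fun y => padicValInt 2 ((Main_L X D u y).headD 0)) hSne
    have he := (hSm e).1 heS
    have hea : a ≠ e := by
      rintro rfl
      have := ha'.2
      omega
    obtain ⟨g, ga, ge⟩ := thm_Move a e ha'.1 he.1 hea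
    have hLe : (Main_L X D u e).length = 1 := by rw [Main_length]; exact he.2
    obtain ⟨r, hr⟩ := List.length_eq_one_iff.1 hLe
    have hp : ∀ y, y ≠ 0 → y ≠ ![1, 0, 0] → Main_m X (fun v => g (D v)) y ≠ 0 := by
      intro y hy hy1
      have h1 : g (g.symm y) = y := g.apply_symm_apply y
      rw [← h1, Main_move]
      refine hpos _ ?_ ?_
      · intro h2
        rw [h2, map_zero] at h1
        exact hy h1.symm
      · intro h2
        rw [h2, ga] at h1
        exact hy1 h1.symm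
    refine Main_B X (fun v => g (D v)) (hcos.2 g) hX ?_ ?_ (hp _ (by decide) (by decide))
      (hp _ (by decide) (by decide)) (hp _ (by decide) (by decide)) (hp _ (by decide) (by decide))
      (hp _ (by decide) (by decide)) u hu r ?_ ?_
    · rw [← ga, Main_move]
      exact ha'.2
    · rw [← ge, Main_move]
      exact he.2
    · rw [← ge, Main_move_L]
      exact hr
    · intro y n hy hn
      have h1 : g (g.symm y) = y := g.apply_symm_apply y
      rw [← h1, Main_move_L] at hn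
      have h2 : g.symm y ∈ S := by
        rw [hSm]
        constructor
        · intro h3
          rw [h3, map_zero] at h1
          exact hy h1.symm
        · rw [← Main_length X D u, hn]
          rfl
      have h3 := hmax _ h2
      simp only [hn, hr, List.headD_cons] at h3
      exact h3
  · -- no point is missing
    have hZ0 : Z = ∅ := by
      rw [← Finset.card_eq_zero]
      omega
    have hpos : ∀ y, y ≠ 0 → Main_m X D y ≠ 0 := by
      intro y hy hm
      have h1 := (hZm y).2 ⟨hy, hm⟩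
      rw [hZ0] at h1
      exact absurd h1 (Finset.notMem_empty _)
    obtain ⟨p, hpS, hmax⟩ := Finset.exists_max_image (Finset.univ.erase (0 : G))
      (fun y => Main_m X D y) ⟨![1, 0, 0], by decide⟩
    have hp0 : p ≠ 0 := Finset.ne_of_mem_erase hpS
    obtain ⟨b, hb0, hpb⟩ : ∃ b : G, b ≠ 0 ∧ p ≠ b := by
      by_cases h : p = ![1, 0, 0]
      · exact ⟨![0, 1, 0], by decide, by rw [h]; decide⟩
      · exact ⟨![1, 0, 0], by decide, h⟩
    obtain ⟨g, gp, gb⟩ := thm_Move p b hp0 hb0 hpb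
    have hp : ∀ y, y ≠ 0 → Main_m X (fun v => g (D v)) y ≠ 0 ∧
        Main_m X (fun v => g (D v)) y ≤ Main_m X (fun v => g (D v)) ![1, 0, 0] := by
      intro y hy
      have h1 : g (g.symm y) = y := g.apply_symm_apply y
      have h3 : g.symm y ≠ 0 := by
        intro h2
        rw [h2, map_zero] at h1
        exact hy h1.symm
      rw [← gp, ← h1, Main_move, Main_move]
      exact ⟨hpos _ h3, hmax _ (Finset.mem_erase.2 ⟨h3, Finset.mem_univ _⟩)⟩
    have hsum := Main_total X fun v => g (D v)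
    rw [Main_sum] at hsum
    have q1 := hp ![1, 0, 0] (by decide)
    have q2 := hp ![0, 1, 0] (by decide)
    have q3 := hp ![1, 1, 0] (by decide)
    have q4 := hp ![0, 0, 1] (by decide)
    have q5 := hp ![1, 0, 1] (by decide)
    have q6 := hp ![0, 1, 1] (by decide)
    have q7 := hp ![1, 1, 1] (by decide)
    exact Main_C X (fun v => g (D v)) (hcos.2 g) q1.1 (by omega) (by omega) (by omega) (by omega)
      (by omega) (by omega) (by omega) u hu

end

theorem thm_Corank : St_Corank := by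
  intro V _ _ _ X hX hc u hu
  have hsp : span (ZMod 2) ((X.erase 0 : Finset V) : Set V) = span (ZMod 2) (X : Set V) := by
    rw [Finset.coe_erase, Submodule.span_sdiff_singleton_zero]
  obtain ⟨z, hz, hP⟩ := Main_nz (X.erase 0) (Finset.notMem_erase 0 X) hX (by rw [hsp]; exact hc) u
    (fun v hv => hu v (Finset.mem_of_mem_erase hv) (Finset.ne_of_mem_erase hv))
  refine ⟨z, hz, ?_⟩
  by_cases h0 : (0 : V) ∈ X
  · have hz0 : z ≠ 0 := by
      rintro rfl
      simp at hz
    rw [← Finset.insert_erase h0, SPT.PP_loop (X.erase 0) ⊥ _ 0 (Finset.notMem_erase 0 X)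
      (zero_mem _)]
    exact mul_ne_zero (zpow_ne_zero _ hz0) hP
  · rw [Finset.erase_eq_of_notMem h0] at hP
    exact hP

/-- **At most eight vectors `≠ 0`.** -/
theorem thm_Card8 : St_Card8 := by
  intro V _ _ _ X hX
  by_cases hr : Module.finrank (ZMod 2) (span (ZMod 2) (X : Set V)) ≤ 4
  · exact SPT.thm_Rank4 V X hr
  · exact thm_Corank V X hX (by omega)

end Pool.Agent.C8
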